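import Pool.Agent.Lib.MP_1a91b9_ntW.F.BaseW

/-!
# Phase 6, form T over `ℚ(√-2)`, file RatW: the rationality of the L-quotient

`rat8_of (hP : PrmH) k j S : ∃ q : ℚ, ‖LG Pr (X8 k j S) 1‖ ^ 2 * ‖em (dW k j S)‖ = q * ‖Om‖ ^ 2`.
-/

set_option autoImplicit false
set_option linter.unusedSectionVars false

namespace Pool.Agent.Lib.MP_1a91b9_ntW.F

open NumberField Finset Pool.Agent.Lib.MP_1a91b9_nuT Pool.Agent.Lib.MP_1a91b9_nuT.S3
  Pool.Agent.Lib.MP_1a91b9_nuT.Ell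
open Pool.Agent.Lib.MP_1a91b9_nuT.Rq (ev Rel)
open Pool.Agent.Lib.MP_1a91b9_ntQ (em em_add em_mul em_pow em_sub em_neg em_zero em_one em_ne em_prod
  em_ofNat em_intCast em_natCast em_inj)

noncomputable section

/-- the numbers attached to the primes -/
def PrmH : Prop := ∀ q : Pg, ∃ h : ℂ, h ≠ 0 ∧ ‖h‖ ^ 4 * ‖em q.1‖ ^ 2 = 2 ^ (aa q.1).val ∧
  ∀ (τ : ℂ ≃+* ℂ) (_ : Rq.Fix τ) (c : 𝓞 K8) (s : ZMod 2) (M : ℕ), 0 < M → q.1 ∣ (M : 𝓞 K8) →
    (∀ a : 𝓞 K8, Rel τ (em a / M) (sn s * (em (c * a) / M))) → ¬ q.1 ∣ c →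
      τ h = sn (aa q.1 * s) * cq q c * h

theorem dvd_Nz8 (x : 𝓞 K8) : x ∣ (Nz x : 𝓞 K8) := by
  rw [← absNorm_span8, ← Ideal.mem_span_singleton]
  exact Ideal.absNorm_mem _

theorem norm_dW (k j : ZMod 2) (S : Finset Pg) :
    ‖em (dW k j S)‖ = ‖lm‖ ^ (1 - j.val) * ‖em (DD S)‖ := by
  have h1 : em (dW k j S) = (-1) ^ k.val * lm ^ (1 - j.val) * em (DD S) := by
    have e1 : em (dW k j S) = em ((-1 : 𝓞 K8) ^ k.val * lam ^ (1 - j.val)) * em (DD S) :=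
      em_mul _ _
    have e2 : em ((-1 : 𝓞 K8) ^ k.val * lam ^ (1 - j.val)) =
        em ((-1 : 𝓞 K8) ^ k.val) * em (lam ^ (1 - j.val)) := em_mul _ _
    have e3 : em ((-1 : 𝓞 K8) ^ k.val) = em (-1 : 𝓞 K8) ^ k.val := em_pow _ _
    have e4 : em (lam ^ (1 - j.val)) = em lam ^ (1 - j.val) := em_pow _ _
    have e5 : em (-1 : 𝓞 K8) = -1 := by
      have h2 : em (-1 : 𝓞 K8) = -em (1 : 𝓞 K8) := em_neg 1
      rw [h2, em_one]
    rw [e1, e2, e3, e4, e5]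
    rfl
  rw [h1, norm_mul, norm_mul, norm_pow, norm_pow, norm_neg, norm_one, one_pow, one_mul]

theorem sum_val (S : Finset Pg) (f : Pg → ZMod 2) :
    ((∑ q ∈ S, (f q).val : ℕ) : ZMod 2) = ∑ q ∈ S, f q := by
  rw [Nat.cast_sum]
  exact Finset.sum_congr rfl fun q _ => ZMod.natCast_zmod_val _

/-- **The rationality of the L-quotient.** -/
theorem rat8_of (hP : PrmH) (k j : ZMod 2) (S : Finset Pg) : ∃ q : ℚ,
    ‖LG Pr (X8 k j S) 1‖ ^ 2 * ‖em (dW k j S)‖ = (q : ℝ) * ‖Om‖ ^ 2 := by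
  classical
  choose hh hh0 hhn hhτ using hP
  have hX := X8_chr k j S
  have hO := Om_ne_zero
  obtain ⟨ν, hν⟩ : ∃ ν, ν = fj j * DD S := ⟨_, rfl⟩
  rw [← hν] at hX
  have hν0 : ν ≠ 0 := hX.ne
  have hνe : em ν ≠ 0 := em_ne hν0
  obtain ⟨j', hj'⟩ : ∃ j' : ZMod 2, j' = j + AS S := ⟨_, rfl⟩
  obtain ⟨H0, hH0, ⟨r, hr⟩, hτ0⟩ := base_exists k j'
  obtain ⟨H, hH⟩ : ∃ H : ℂ, H = LG Pr (X8 k j S) 1 * em ν / Om := ⟨_, rfl⟩
  obtain ⟨P, hPd⟩ : ∃ P : ℂ, P = ∏ q ∈ S, hh q := ⟨_, rfl⟩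
  have hP0 : P ≠ 0 := by
    rw [hPd]
    exact Finset.prod_ne_zero_iff.2 fun q _ => hh0 q
  -- the quotient is in `K`
  obtain ⟨x, hx⟩ : ∃ x : K, embK x = H / (P * H0) := by
    refine Rg.mem_K fun τ hτ => ?_
    obtain ⟨M, hM⟩ : ∃ M : ℕ, M = 8 * Nz ν := ⟨_, rfl⟩
    have hM0 : 0 < M := by
      have : Nz ν ≠ 0 := fun h0 => hν0 (Nz_eq_zero.1 h0)
      omega
    have hνM : ν ∣ (M : 𝓞 K8) := by
      rw [hM]
      push_cast
      exact (dvd_Nz8 ν).mul_left _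
    have hl5 : 4 * lam ∣ (M : 𝓞 K8) := by
      rw [hM]
      push_cast
      have e1 : (8 : 𝓞 K8) = 4 * lam * -lam := by
        linear_combination (4 : 𝓞 K8) * lam_sq
      rw [e1, mul_assoc (4 * lam)]
      exact dvd_mul_right _ _
    obtain ⟨c, s, hA⟩ := Aut.exists hτ hM0 hl5
    have t1 := act_sum hX hM0 hνM hA.pr hA.cop hA.ev (X8_fix τ k j S)
    have t2 := hτ0 τ M c s hA
    have hqM : ∀ q ∈ S, q.1 ∣ (M : 𝓞 K8) := by
      intro q hq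
      refine Dvd.dvd.trans ?_ hνM
      rw [hν]
      exact (Finset.dvd_prod_of_mem (fun q : Pg => q.1) hq).mul_left _
    have hqc : ∀ q ∈ S, ¬ q.1 ∣ c := by
      intro q hq h2
      exact q.2.1.not_isUnit (hA.cop.isUnit_of_dvd' h2 (hqM q hq))
    obtain ⟨E, hE⟩ : ∃ E : ℂ, E = ∏ q ∈ S, cq q c := ⟨_, rfl⟩
    have hE2 : E ^ 2 = 1 := by
      rw [hE, ← Finset.prod_pow]
      exact Finset.prod_eq_one fun q hq => cq_sq (hqc q hq)
    have t3 : τ P = sn (AS S * s) * E * P := by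
      rw [hPd, map_prod, hE, AS, Finset.sum_mul, sn_sum, ← Finset.prod_mul_distrib,
        ← Finset.prod_mul_distrib]
      exact Finset.prod_congr rfl fun q hq => hhτ q τ hτ c s M hM0 (hqM q hq) hA.rel (hqc q hq)
    have hXc : X8 k j S c = th8 (k + AS S) j c * E := by rw [hE, X8]
    rw [hXc, ← hH] at t1
    have hsg := hA.sgn
    have hth : th8 (k + AS S) j c = th8 k j' c * sn (AS S * s) := by
      have hs' : sn (AS S * s) = th8 (AS S) (AS S) c := by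
        rcases sn_cases (AS S) with h | h
        · rw [h, zero_mul, sn_zero, th8, zero_mul, zero_mul, add_zero, sn_zero]
        · rw [h, one_mul, hsg]
      rw [hs', th8, th8, th8, ← sn_add, hj']
      congr 1
      have h2 : ∀ y : ZMod 2, y + y = 0 := by decide
      linear_combination (-(ll c)) * h2 (AS S)
    rw [hth] at t1
    have hτH0 : τ H0 ≠ 0 := (map_ne_zero τ).2 hH0
    have hτP0 : τ P ≠ 0 := (map_ne_zero τ).2 hP0
    have hE0 : E ≠ 0 := by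
      intro h
      rw [h] at hE2
      norm_num at hE2
    rw [map_div₀, map_mul, div_eq_div_iff (mul_ne_zero hτP0 hτH0) (mul_ne_zero hP0 hH0), t3]
    have hu := th8_ne k j' c
    have hw := sn_ne (AS S * s)
    have hss := sn_mul_self (AS S * s)
    generalize th8 k j' c = u at *
    generalize sn (AS S * s) = w at *
    generalize sn s = σ at *
    apply mul_left_cancel₀ (mul_ne_zero (mul_ne_zero hu hw) hE0)
    linear_combination (P * H0) * t1 - (H * P * w ^ 2 * E ^ 2) * t2 -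
      (H * P * σ * H0 * E ^ 2) * hss - (H * P * σ * H0) * hE2
  have hHn : ‖H‖ ^ 2 = ((Algebra.norm ℚ x : ℚ) : ℝ) * (‖P‖ ^ 2 * ‖H0‖ ^ 2) := by
    have h1 : H = embK x * (P * H0) := by
      rw [hx, div_mul_cancel₀ _ (mul_ne_zero hP0 hH0)]
    have h2 := S3.norm_K x
    rw [Complex.mul_conj, Complex.normSq_eq_norm_sq] at h2
    have h3 : ((Algebra.norm ℚ x : ℚ) : ℝ) = ‖embK x‖ ^ 2 := by exact_mod_cast h2
    rw [h1, norm_mul, norm_mul, h3]
    ring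
  -- the absolute value of `P`
  obtain ⟨n, hn⟩ : ∃ n : ℕ, n = ∑ q ∈ S, (aa q.1).val := ⟨_, rfl⟩
  have hnA : (n : ZMod 2) = AS S := by
    rw [hn, sum_val]
    rfl
  obtain ⟨l, hl⟩ : ∃ l, l = ‖lm‖ := ⟨_, rfl⟩
  have hl2 : l ^ 2 = 2 := by rw [hl, norm_lm_sq]
  have hl0 : 0 < l := by rw [hl]; exact norm_lm_pos
  obtain ⟨δ, hδ⟩ : ∃ δ, δ = ‖em (DD S)‖ := ⟨_, rfl⟩
  have hPn : ‖P‖ ^ 2 * δ = l ^ n := by
    have h1 : (‖P‖ ^ 2 * δ) ^ 2 = (l ^ n) ^ 2 := by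
      have e1 : (‖P‖ ^ 2 * δ) ^ 2 = ∏ q ∈ S, ‖hh q‖ ^ 4 * ‖em q.1‖ ^ 2 := by
        rw [hPd, hδ, em_DD, _root_.norm_prod, _root_.norm_prod, Finset.prod_mul_distrib,
          Finset.prod_pow, Finset.prod_pow]
        ring
      rw [e1, Finset.prod_congr rfl fun q _ => hhn q, Finset.prod_pow_eq_pow_sum, ← hn, ← pow_mul,
        mul_comm n 2, pow_mul, hl2]
    exact (pow_left_inj₀ (mul_nonneg (by positivity) (by rw [hδ]; exact norm_nonneg _))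
      (by positivity) (by norm_num)).1 h1
  have hL : ‖LG Pr (X8 k j S) 1‖ ^ 2 * ‖em ν‖ ^ 2 = ‖H‖ ^ 2 * ‖Om‖ ^ 2 := by
    have h1 : LG Pr (X8 k j S) 1 * em ν = H * Om := by
      rw [hH, div_mul_cancel₀ _ hO]
    rw [← mul_pow, ← norm_mul, h1, norm_mul, mul_pow]
  -- the power of `2`
  obtain ⟨m, hm⟩ : ∃ m : ℕ, l ^ n * l ^ (1 - j.val) = 2 ^ m * l ^ (1 - j'.val) := by
    rcases sn_cases (AS S) with h | h
    · have h1 : n % 2 = 0 := by
        rw [h] at hnA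
        have := (ZMod.natCast_eq_zero_iff n 2).1 hnA
        omega
      refine ⟨n / 2, ?_⟩
      rw [hj', h, add_zero]
      congr 1
      have e : n = 2 * (n / 2) := by omega
      conv_lhs => rw [e]
      rw [pow_mul, hl2]
    · have h1 : n % 2 = 1 := by
        rw [h] at hnA
        have h2 : ((n + 1 : ℕ) : ZMod 2) = 0 := by
          push_cast
          rw [hnA]
          rfl
        have := (ZMod.natCast_eq_zero_iff _ 2).1 h2
        omega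
      have e : n = 2 * (n / 2) + 1 := by omega
      rcases sn_cases j with hj | hj
      · refine ⟨n / 2 + 1, ?_⟩
        have e1 : (j' : ZMod 2).val = 1 := by
          rw [hj', h, hj, zero_add]
          rfl
        rw [e1, hj, ZMod.val_zero]
        conv_lhs => rw [e]
        rw [Nat.sub_zero, Nat.sub_self, pow_succ, pow_mul, hl2, pow_one, pow_zero, pow_succ]
        linear_combination (2 ^ (n / 2) : ℝ) * hl2
      · refine ⟨n / 2, ?_⟩
        have e1 : (j' : ZMod 2).val = 0 := by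
          rw [hj', h, hj]
          rfl
        have e2 : (1 : ZMod 2).val = 1 := rfl
        rw [e1, hj, e2]
        conv_lhs => rw [e]
        rw [Nat.sub_zero, Nat.sub_self, pow_succ, pow_mul, hl2, pow_one, pow_zero]
        ring
  rw [norm_dW, ← hl, ← hδ]
  rw [← hl] at hr
  refine ⟨(Algebra.norm ℚ x) * (2 ^ m * r) / (Nz ν : ℕ), ?_⟩
  have hν2 : ‖em ν‖ ^ 2 ≠ 0 := pow_ne_zero 2 (norm_ne_zero_iff.2 hνe)
  have hNz : ((Nz ν : ℕ) : ℝ) = ‖em ν‖ ^ 2 := Nz_eq ν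
  push_cast
  rw [hNz, div_mul_eq_mul_div, eq_div_iff hν2, ← hr]
  linear_combination (l ^ (1 - j.val) * δ) * hL + (l ^ (1 - j.val) * δ * ‖Om‖ ^ 2) * hHn +
    (((Algebra.norm ℚ x : ℚ) : ℝ) * ‖H0‖ ^ 2 * l ^ (1 - j.val) * ‖Om‖ ^ 2) * hPn +
    (((Algebra.norm ℚ x : ℚ) : ℝ) * ‖H0‖ ^ 2 * ‖Om‖ ^ 2) * hm

end

end Pool.Agent.Lib.MP_1a91b9_ntW.F
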