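import Pool.Agent.Lib.MP_1a91b9_ntW.F.FormG
import Pool.Agent.Lib.MP_1a91b9_ntW.F.RatW
import Pool.Agent.Lib.MP_1a91b9_ntW.T.Per8

/-!
# Phase 6, form T over `ℚ(√-2)`, file FormW: the formula modulo `2`

`formW`: for every `k`, `j`, `S`, `d = dW k j S`: `g(1) √8 / Ω = q T / 4`, `q` with odd denominator, odd
exactly if `GW k j S ≠ 0`.
-/

set_option autoImplicit false
set_option linter.unusedSectionVars false

namespace Pool.Agent.Lib.MP_1a91b9_ntW.F

open NumberField IsDedekindDomain Finset Pool.Agent.Lib.MP_1a91b9_nuT Pool.Agent.Lib.MP_1a91b9_nuT.S3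
  Pool.Agent.Lib.MP_1a91b9_nuT.Ell
open Pool.Agent.Lib.MP_1a91b9_ntQ (em em_add em_mul em_pow em_sub em_neg em_zero em_one em_ne em_prod
  em_ofNat em_intCast em_natCast em_inj Rt)
open Pool.Agent.Lib.MP_1a91b9_ntT.S9 (tam normFactor period minChange)
open scoped Classical

noncomputable section

/-! ### The normalised value -/

/-- the normalised value -/
def zW (k j : ZMod 2) (S : Finset Pg) : ℂ :=
  if j = 0 then La8 k 0 S / (La8 k 0 ∅ * eu8 S) else La8 k 1 S / (om * ct8 S * eu8 S)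

theorem Rt_zW {B : ValuationSubring ℂ} (hB : (2 : ℂ)⁻¹ ∉ B) (k j : ZMod 2) (S : Finset Pg) :
    Rt B (zW k j S) (GW k j S) := by
  rcases sn_cases j with rfl | rfl
  · rw [zW, if_pos rfl]
    exact nu8_zero hB k S
  · rw [zW, if_neg one_ne_zero]
    exact nu8_one hB k S

/-- the factor of the odd places -/
def EW (S : Finset Pg) : ℕ := ∏ q ∈ S, if aa q.1 = 0 then 4 else 2

theorem EW_ne (S : Finset Pg) : EW S ≠ 0 := by
  refine prod_ne_zero_iff.2 fun q _ => ?_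
  split_ifs <;> norm_num

theorem norm_eu8 (S : Finset Pg) : ‖eu8 S‖ ^ 2 = EW S := by
  rw [eu8, EW, _root_.norm_prod, ← Finset.prod_pow, Nat.cast_prod]
  refine Finset.prod_congr rfl fun q _ => ?_
  have h := norm_lm_sq
  split_ifs
  · rw [norm_pow]
    have e : (‖lm‖ ^ 2) ^ 2 = (2 : ℝ) ^ 2 := by rw [h]
    rw [e]
    norm_num
  · rw [h]
    norm_num

theorem norm_fj (j : ZMod 2) : ‖em (fj j)‖ ^ 2 = 16 * 2 ^ j.val := by
  have h := norm_lm_sq
  rcases sn_cases j with rfl | rfl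
  · rw [em_fj_zero, ZMod.val_zero]
    norm_num
  · have h1 : (1 : ZMod 2).val = 1 := rfl
    rw [em_fj_one, norm_mul, mul_pow, h, h1]
    norm_num

/-- the constant -/
def kW (j : ZMod 2) (S : Finset Pg) : ℝ := if j = 0 ∨ AS S = 1 then 1 / 2 else 1

/-- **The absolute value of the L-value.** -/
theorem norm_L8 (k j : ZMod 2) (S : Finset Pg) :
    ‖LG Pr (X8 k j S) 1‖ ^ 2 * ‖em (dW k j S)‖ =
      ‖zW k j S‖ ^ 2 * (‖om‖ ^ 2 * (EW S * kW j S)) / ‖em (DD S)‖ := by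
  have hD : ‖em (DD S)‖ ≠ 0 := norm_ne_zero_iff.2 (em_ne (DD_ne S))
  have hlm := norm_lm_pos
  have h2 := norm_lm_sq
  have hu : eu8 S ≠ 0 := eu8_ne S
  have hom : om ≠ 0 := om_ne
  have h1 : ‖La8 k j S‖ ^ 2 = 16 * 2 ^ j.val * ‖em (DD S)‖ ^ 2 * ‖LG Pr (X8 k j S) 1‖ ^ 2 := by
    have e : em (fj j * DD S) = em (fj j) * em (DD S) := em_mul _ _
    rw [La8, e, norm_mul, norm_mul, mul_pow, mul_pow, norm_fj]
  -- the value from the normalised value
  have h3 : ‖La8 k j S‖ ^ 2 * ‖lm‖ ^ (1 - j.val) =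
      ‖zW k j S‖ ^ 2 * (‖om‖ ^ 2 * (EW S * kW j S)) * (16 * 2 ^ j.val) := by
    rcases sn_cases j with rfl | rfl
    · have h0 : La8 k 0 ∅ ≠ 0 := by
        intro h
        have h4 := norm_L0 k
        rw [h, zero_div, norm_zero] at h4
        norm_num at h4
      have h4 := norm_L0 k
      have e : La8 k 0 S = zW k 0 S * ((La8 k 0 ∅ / om) * om * eu8 S) := by
        rw [zW, if_pos rfl]
        field_simp
      have h5 : kW 0 S = 1 / 2 := by
        rw [kW, if_pos (Or.inl rfl)]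
      rw [e, norm_mul, norm_mul, norm_mul, mul_pow, mul_pow, mul_pow, norm_eu8, h5, ZMod.val_zero,
        Nat.sub_zero, pow_one, pow_zero]
      linear_combination (‖zW k 0 S‖ ^ 2 * ‖om‖ ^ 2 * EW S) * h4
    · have e : La8 k 1 S = zW k 1 S * (om * ct8 S * eu8 S) := by
        have hc := ct8_ne S
        rw [zW, if_neg one_ne_zero]
        field_simp
      have hv : (1 : ZMod 2).val = 1 := rfl
      have h5 : ‖ct8 S‖ ^ 2 = 32 * kW 1 S := by
        rcases sn_cases (AS S) with h | h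
        · have h6 : ¬ ((1 : ZMod 2) = 0 ∨ AS S = 1) := by
            rw [h]
            decide
          rw [ct8, if_neg (by rw [h]; decide), kW, if_neg h6, norm_pow]
          have e : (‖lm‖ ^ 5) ^ 2 = (‖lm‖ ^ 2) ^ 5 := by ring
          rw [e, h2]
          norm_num
        · rw [ct8, if_pos h, kW, if_pos (Or.inr h), norm_pow]
          have e : (‖lm‖ ^ 4) ^ 2 = (‖lm‖ ^ 2) ^ 4 := by ring
          rw [e, h2]
          norm_num
      rw [e, norm_mul, norm_mul, norm_mul, mul_pow, mul_pow, mul_pow, norm_eu8, h5, hv,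
        Nat.sub_self, pow_zero, pow_one]
      ring
  have hc : (16 : ℝ) * 2 ^ j.val ≠ 0 := by positivity
  rw [norm_dW, eq_div_iff hD]
  apply mul_right_cancel₀ hc
  rw [← h3, h1]
  ring

/-! ### The formula -/

theorem nz_DD (S : Finset Pg) : Odd (Nz (DD S)) := by
  induction S using Finset.induction_on with
  | empty =>
    rw [DD_empty, Nz_one]
    exact odd_one
  | insert q S hq ih =>
    rw [DD_insert hq, Nz_mul]
    exact Odd.mul (Nat.odd_iff.2 (Nz_odd q)) ih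

theorem v_DD {B : ValuationSubring ℂ} (hB : (2 : ℂ)⁻¹ ∉ B) (S : Finset Pg) :
    B.valuation ((‖em (DD S)‖ : ℝ) : ℂ) = 1 := by
  have hN : (Nz (DD S) : ℝ) = ‖em (DD S)‖ ^ 2 := Nz_eq _
  refine v2_pow (n := 2) (by norm_num) ?_
  rw [← Complex.ofReal_pow, ← hN, Complex.ofReal_natCast, v2_odd hB (nz_DD S)]

theorem prod_perAt_ne {d : 𝓞 K8} (hd : d ≠ 0) :
    (∏ v : InfinitePlace K8, Pool.Agent.Lib.MP_1a91b9_ntT.Per.perAt (WW d) v : ℝ) ≠ 0 := by
  rw [T.prod_perAt8 hd]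
  have h1 : ‖emb8 (d : K8)‖ ≠ 0 := norm_ne_zero_iff.2 (em_ne hd)
  have h2 : ‖om‖ ≠ 0 := norm_ne_zero_iff.2 om_ne
  positivity

theorem dW_ne0 (k j : ZMod 2) (S : Finset Pg) : dW k j S ≠ 0 := by
  rw [dW]
  exact mul_ne_zero (mul_ne_zero (pow_ne_zero _ (neg_ne_zero.2 one_ne_zero))
    (pow_ne_zero _ lam_ne_zero)) (DD_ne S)

/-- **The formula modulo `2`**, general form: `g(1) = c ‖L‖²`, the scaling factor at `lam` is `2 ^ n`,
`u` is a unit above `2`. -/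
theorem formW_gen (hP : PrmH) {k j : ZMod 2} {S : Finset Pg} {c : ℚ} {n : ℤ} {u : ℝ} {T : ℕ}
    (hu : ∀ B : ValuationSubring ℂ, (2 : ℂ)⁻¹ ∉ B → B.valuation (u : ℂ) = 1) {g1 : ℂ}
    (hg : g1 = (((c : ℝ) * ‖LG Pr (X8 k j S) 1‖ ^ 2 : ℝ) : ℂ))
    (hper : period (WW (dW k j S)) = 2 ^ n * (2 * √2 * ‖om‖ ^ 2 / ‖emb8 (dW k j S : K8)‖))
    (hT : (c : ℝ) / 2 ^ n * (EW S * kW j S) = u * ((T : ℝ) / 4)) (hT0 : T ≠ 0) :
    ∃ q : ℚ, ¬ 2 ∣ q.den ∧ (¬ (2 : ℤ) ∣ q.num ↔ GW k j S ≠ 0) ∧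
      g1 * (√|(discr K8 : ℝ)| : ℝ) / (period (WW (dW k j S)) : ℝ) =
        (q * ((T : ℝ) / ((2 : ℕ) : ℝ) ^ 2) : ℝ) := by
  have hD0 := dW_ne0 k j S
  have hem : emb8 (dW k j S : K8) = em (dW k j S) := rfl
  have hd : ‖em (dW k j S)‖ ≠ 0 := norm_ne_zero_iff.2 (em_ne hD0)
  have hO : ‖om‖ ≠ 0 := norm_ne_zero_iff.2 om_ne
  have hDD : ‖em (DD S)‖ ≠ 0 := norm_ne_zero_iff.2 (em_ne (DD_ne S))
  have h2 : (√2 : ℝ) ≠ 0 := by positivity
  have h2n : (2 : ℝ) ^ n ≠ 0 := zpow_ne_zero _ two_ne_zero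
  have h4 : ((2 : ℕ) : ℝ) ^ 2 = 4 := by norm_num
  have hsq : √|(discr K8 : ℝ)| = 2 * √2 := Pool.Agent.Lib.MP_1a91b9_ntW.T.sqrt_discr_K8
  rw [hem] at hper
  refine form_gen hT0 two_ne_zero (prod_perAt_ne hD0)
    (x := u * (‖zW k j S‖ ^ 2 / ‖em (DD S)‖)) ?_ ?_ (fun hb B hB => ?_) fun hb B hB => ?_
  · have h1 := norm_L8 k j S
    rw [hg, hsq, hper, h4, ← Complex.ofReal_mul, ← Complex.ofReal_div]
    congr 1
    have h3 : (c : ℝ) * ‖LG Pr (X8 k j S) 1‖ ^ 2 * (2 * √2) /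
        (2 ^ n * (2 * √2 * ‖om‖ ^ 2 / ‖em (dW k j S)‖)) =
        (c : ℝ) / 2 ^ n * (‖LG Pr (X8 k j S) 1‖ ^ 2 * ‖em (dW k j S)‖) / ‖om‖ ^ 2 := by
      field_simp
    rw [h3, h1]
    have h5 : (c : ℝ) / 2 ^ n * (‖zW k j S‖ ^ 2 * (‖om‖ ^ 2 * (EW S * kW j S)) / ‖em (DD S)‖) /
        ‖om‖ ^ 2 = ((c : ℝ) / 2 ^ n * (EW S * kW j S)) * (‖zW k j S‖ ^ 2 / ‖em (DD S)‖) := by
      field_simp
    rw [h5, hT]
    ring
  · obtain ⟨q, hq⟩ := rat8_of hP k j S
    refine ⟨c * q / 36, ?_⟩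
    rw [hg, hsq, Pool.Agent.Lib.MP_1a91b9_ntW.T.prod_perAt8 hD0, hem, ← Complex.ofReal_ratCast, ← Complex.ofReal_mul,
      ← Complex.ofReal_mul]
    congr 1
    have h3 : ‖LG Pr (X8 k j S) 1‖ ^ 2 = q * ‖Om‖ ^ 2 / ‖em (dW k j S)‖ := by
      rw [eq_div_iff hd, hq]
    rw [h3, norm_om]
    push_cast
    ring
  · have h1 : B.valuation ((‖zW k j S‖ ^ 2 : ℝ) : ℂ) = 1 :=
      v2_normsq hB fun B hB => (Rt_zW hB k j S).unit hb
    rw [Complex.ofReal_mul, Complex.ofReal_div, map_mul, map_div₀, hu B hB, v_DD hB, h1, one_mul,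
      div_one]
  · have hb' : GW k j S = 0 := not_not.1 hb
    have h1 : B.valuation ((‖zW k j S‖ ^ 2 : ℝ) : ℂ) < 1 :=
      v2_normsq_lt hB fun B hB => by
        have := Rt_zW hB k j S
        rw [hb'] at this
        exact this.lt
    rw [Complex.ofReal_mul, Complex.ofReal_div, map_mul, map_div₀, hu B hB, v_DD hB, one_mul,
      div_one]
    exact h1

/-! ### The inputs -/

/-- good reduction at `lam` -/
def GdR (k j : ZMod 2) (S : Finset Pg) : Prop := j = 0 ∧ k = 1 ∧ AS S = 1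

/-- the L-series: continuation and value at `1` -/
def SerH : Prop := ∀ (k j : ZMod 2) (S : Finset Pg), ∃ g : ℂ → ℂ, Differentiable ℂ g ∧
  (∀ s : ℂ, 3 / 2 < s.re → g s = (WW (dW k j S)).LSeries s) ∧
    g 1 = ((((if GdR k j S then 2 / 3 else 1 : ℚ) : ℝ) * ‖LG Pr (X8 k j S) 1‖ ^ 2 : ℝ) : ℂ)

/-- the exponent of the scaling factor at `lam` -/
def nW (k j : ZMod 2) (S : Finset Pg) : ℤ := if j = 1 then 0 else if GdR k j S then 2 else 1

/-- the period -/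
def PerH : Prop := ∀ (k j : ZMod 2) (S : Finset Pg), period (WW (dW k j S)) =
  2 ^ nW k j S * (2 * √2 * ‖om‖ ^ 2 / ‖emb8 (dW k j S : K8)‖)

/-- the Tamagawa number at `lam` -/
def tW (j : ZMod 2) (S : Finset Pg) : ℕ := if j = 0 then 1 else if AS S = 1 then 2 else 4

/-- the Tamagawa numbers -/
def TamH : Prop := ∀ (k j : ZMod 2) (S : Finset Pg),
  ∏ᶠ v : HeightOneSpectrum (𝓞 K8), tam (WW (dW k j S)) v = tW j S * EW S

/-- **The formula modulo `2`.** -/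
theorem formW (hP : PrmH) (hS : SerH) (hO : PerH) (hT : TamH) (k j : ZMod 2) (S : Finset Pg) :
    FormN (WW (dW k j S)) 2 (GW k j S ≠ 0) := by
  obtain ⟨g, hgd, hgs, hg⟩ := hS k j S
  refine ⟨g, hgd, hgs, ?_⟩
  rw [hT k j S]
  have hE := EW_ne S
  have hT0 : tW j S * EW S ≠ 0 := by
    refine mul_ne_zero ?_ hE
    unfold tW
    split_ifs <;> norm_num
  by_cases hgr : GdR k j S
  · obtain ⟨hj, -, -⟩ := id hgr
    refine formW_gen hP (u := ((3 : ℕ) : ℝ)⁻¹) (fun B hB => ?_) hg (hO k j S) ?_ hT0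
    · rw [Complex.ofReal_inv, Complex.ofReal_natCast, map_inv₀, v2_odd hB (n := 3) (by decide),
        inv_one]
    · rw [if_pos hgr, nW, if_pos hgr, tW, if_pos hj, kW, if_pos (Or.inl hj), hj,
        if_neg zero_ne_one]
      push_cast
      norm_num
      ring
  · refine formW_gen hP (u := 1) (fun B hB => ?_) hg (hO k j S) ?_ hT0
    · rw [Complex.ofReal_one, map_one]
    · rw [if_neg hgr, nW, if_neg hgr, tW, kW]
      rcases sn_cases j with hj | hj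
      · rw [if_neg (by rw [hj]; decide), if_pos (Or.inl hj), if_pos hj]
        push_cast
        norm_num
        ring
      · rw [if_pos hj]
        rcases sn_cases (AS S) with h | h
        · have h6 : ¬ (j = 0 ∨ AS S = 1) := by
            rw [h, hj]
            decide
          rw [if_neg h6, if_neg (by rw [hj]; decide), if_neg (by rw [h]; decide)]
          push_cast
          norm_num
        · rw [if_pos (Or.inr h), if_neg (by rw [hj]; decide), if_pos h]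
          push_cast
          norm_num
          ring

end

end Pool.Agent.Lib.MP_1a91b9_ntW.F
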