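import Pool.Agent.Lib.MP_1a91b9_ntW.A.Avg8
import Pool.Agent.Lib.MP_1a91b9_nuX.RG.Act
import Pool.Agent.Lib.MP_1a91b9_nuT.Rg.Fx

/-!
# Phase 6, form T over `ℚ(√-2)`, file ActW: the action of the automorphisms of `ℂ` on the values

`exists_act`: the action on the `M`-torsion is the multiplication by `± c`, `c` normalised;
`act_sum`: the action on the value at `1` of the L-series of `ψbar X`.
-/

set_option autoImplicit false
set_option linter.unusedSectionVars false

namespace Pool.Agent.Lib.MP_1a91b9_ntW.F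

open NumberField Finset Pool.Agent.Lib.MP_1a91b9_nuT Pool.Agent.Lib.MP_1a91b9_nuT.S3
  Pool.Agent.Lib.MP_1a91b9_nuT.Ell
open Pool.Agent.Lib.MP_1a91b9_nuX.RG (RlM Hact exists_act2)
open Pool.Agent.Lib.MP_1a91b9_nuT.Rq (ev Rel)
open Pool.Agent.Lib.MP_1a91b9_ntQ (em em_add em_mul em_pow em_sub em_neg em_zero em_one em_ne em_prod
  em_ofNat em_intCast em_natCast em_inj)

noncomputable section

theorem em_mem8 (x : 𝓞 K8) : em x ∈ PP.lattice := S3.embK_mem x

theorem em_dvd {a b : 𝓞 K8} (hb : b ≠ 0) (h : em a / em b ∈ PP.lattice) : b ∣ a := by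
  obtain ⟨c, hc⟩ := S3.mem_PP_iff.1 h
  refine ⟨c, em_inj ?_⟩
  have hb0 : em b ≠ 0 := em_ne hb
  have hc' : em c = em a / em b := hc
  have h1 : em (b * c) = em b * em c := em_mul b c
  rw [h1, hc', mul_div_cancel₀ _ hb0]

theorem em_lat {a b c : 𝓞 K8} (hc : c ≠ 0) (h : c ∣ a - b) :
    em a / em c - em b / em c ∈ PP.lattice := by
  obtain ⟨d, hd⟩ := h
  have e : em a / em c - em b / em c = em d := by
    have hc0 : em c ≠ 0 := em_ne hc
    have h1 : em (a - b) = em a - em b := em_sub a b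
    have h2 : em (c * d) = em c * em d := em_mul c d
    rw [← sub_div, ← h1, hd, h2, mul_div_cancel_left₀ _ hc0]
  rw [e]
  exact em_mem8 d

theorem sn_neg_cases (s : ZMod 2) (z : ℂ) : sn s * z = z ∨ sn s * z = -z := by
  rcases sn_cases s with rfl | rfl
  · left
    rw [sn_zero, one_mul]
  · right
    rw [sn_one, neg_one_mul]

/-- **The action of an automorphism on the `M`-torsion** is the multiplication by `sn s * c`, `c`
normalised and prime to `M`. -/
theorem exists_act {τ : ℂ ≃+* ℂ} (hτ : Rq.Fix τ) (M : ℕ) (hM : 0 < M)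
    (h2 : lam ∣ (M : 𝓞 K8)) :
    ∃ (c : 𝓞 K8) (s : ZMod 2), Pr c ∧ IsCoprime c (M : 𝓞 K8) ∧
      (∀ a : 𝓞 K8, Rel τ (em a / M) (sn s * (em (c * a) / M))) ∧
      ∀ a : 𝓞 K8, τ (ev (em a / M)) = sn s * ev (em (c * a) / M) := by
  obtain ⟨χ₀, -, hr₀, hH⟩ := exists_act2 hτ M hM
  obtain ⟨χ, hχ₀, hcop, hE⟩ := hH M hM
  have hMe : em (M : 𝓞 K8) = M := em_natCast M
  have hM0 : (M : 𝓞 K8) ≠ 0 := by exact_mod_cast hM.ne'
  have hMc : (M : ℂ) ≠ 0 := by exact_mod_cast hM.ne'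
  have hrel : ∀ a : 𝓞 K8, Rel τ (em a / M) (em (χ * a) / M) := by
    intro a
    have h1 : Rel τ (em a / M) (em χ₀ * em a / M) := hr₀ a
    have h2 : em (χ * a) / M - em (χ₀ * a) / M ∈ PP.lattice := by
      rw [← hMe]
      refine em_lat hM0 ?_
      rw [← sub_mul]
      exact hχ₀.mul_right a
    have h4 := Rq.rel_period h1 (zero_mem _) h2
    have h5 : em (χ₀ * a) = em χ₀ * em a := em_mul _ _
    rw [add_zero, h5, add_sub_cancel] at h4
    exact h4
  have hev : ∀ a : 𝓞 K8, τ (ev (em a / M)) = ev (em (χ * a) / M) := by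
    intro a
    have h1 := hE a
    have e : em (χ * a) / M = embK (χ : K8) * embK (a : K8) / M := by
      rw [em_mul]
      rfl
    rw [e]
    exact h1
  have hodd : ¬ lam ∣ χ := by
    intro h
    have h3 : IsUnit lam := hcop.isUnit_of_dvd' h h2
    exact lam_prime.not_isUnit h3
  rcases Pr_or_neg hodd with h3 | h3
  · refine ⟨χ, 0, h3, hcop, fun a => ?_, fun a => ?_⟩
    · rw [sn_zero, one_mul]
      exact hrel a
    · rw [sn_zero, one_mul]
      exact hev a
  · have e : ∀ a : 𝓞 K8, em (χ * a) / M = -(em (-χ * a) / M) := by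
      intro a
      have h4 : em (-χ * a) = -em (χ * a) := by rw [neg_mul, em_neg]
      rw [h4, neg_div, neg_neg]
    refine ⟨-χ, 1, h3, hcop.neg_left, fun a => ?_, fun a => ?_⟩
    · have h5 := hrel a
      rw [e] at h5
      rw [sn_one, neg_one_mul]
      exact h5
    · rw [hev, e, Rq.ev_neg, sn_one, neg_one_mul]

/-- multiplication by a normalised element permutes the classes -/
theorem rep_perm {ν : 𝓞 K8} {ι : Type} [Finite ι] {c : ι → 𝓞 K8} (h : RepsG Pr 4 ν c)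
    {u : 𝓞 K8} (hu : IsCoprime u ν) (hf : Pr u) :
    ∃ σ : Equiv.Perm ι, ∀ i, ν ∣ u * c i - c (σ i) := by
  have h1 : ∀ i, ∃ j, ν ∣ u * c i - c j := fun i =>
    h.ex (u * c i) (hu.mul_left (h.cop i)) (hf.mul (h.fx i))
  choose g hg using h1
  have hinj : Function.Injective g := by
    intro i j hij
    apply h.inj
    have h2 : ν ∣ u * (c i - c j) := by
      have e : u * (c i - c j) = (u * c i - c (g i)) - (u * c j - c (g j)) := by
        rw [hij]
        ring
      rw [e]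
      exact dvd_sub (hg i) (hg j)
    exact hu.symm.dvd_of_dvd_mul_left h2
  exact ⟨Equiv.ofBijective g (Finite.injective_iff_bijective.1 hinj), hg⟩

/-- **The action on the value at `1`.** -/
theorem act_sum {ν : 𝓞 K8} {X : 𝓞 K8 → ℂ} (hX : Chr Pr 4 ν X) {M : ℕ} (hM : 0 < M)
    (hν : ν ∣ (M : 𝓞 K8)) {τ : ℂ ≃+* ℂ} {χ : 𝓞 K8} {s : ZMod 2} (h3 : Pr χ)
    (hχ : IsCoprime χ (M : 𝓞 K8))
    (hev : ∀ a : 𝓞 K8, τ (ev (em a / M)) = sn s * ev (em (χ * a) / M))
    (hτX : ∀ a, τ (X a) = X a) :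
    X χ * τ (LG Pr X 1 * em ν / Om) = sn s * (LG Pr X 1 * em ν / Om) := by
  obtain ⟨ι, _, c, hc⟩ := RepsG.exists_reps (P := Pr) (f := 4) hX.ne hX.dvd
  have hν0 : em ν ≠ 0 := em_ne hX.ne
  have hM0 : (M : ℂ) ≠ 0 := by exact_mod_cast hM.ne'
  have hO := Om_ne_zero
  obtain ⟨d, hd⟩ := hν
  have hdM : em ν * em d = M := by
    have h1 : em (ν * d) = em ν * em d := em_mul _ _
    rw [← h1, ← hd]
    exact em_natCast M
  have hd0 : em d ≠ 0 := right_ne_zero_of_mul (hdM ▸ hM0)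
  have hf : ∀ a : 𝓞 K8, em a / em ν = em (a * d) / M := by
    intro a
    have h1 : em (a * d) = em a * em d := em_mul _ _
    rw [← hdM, h1, mul_div_mul_right _ _ hd0]
  have hev2 : ∀ a : 𝓞 K8, τ (ev (em a / em ν)) = sn s * ev (em (χ * a) / em ν) := by
    intro a
    rw [hf, hev, hf, mul_assoc]
  have hL : LG Pr X 1 * em ν / Om = ∑ i, X (c i) * ev (em (c i) / em ν) := by
    have h0 := hX.LG_one hc
    have h1 : ∀ i, ev (em (c i) / em ν) = E1 (em (c i) / em ν) / Om := fun i => rfl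
    rw [h0]
    simp only [h1]
    rw [div_eq_iff hO, Finset.sum_mul]
    change (em ν)⁻¹ * _ * em ν = _
    rw [mul_comm _ (em ν), ← mul_assoc, mul_inv_cancel₀ hν0, one_mul]
    refine Finset.sum_congr rfl fun i _ => ?_
    rw [mul_div_assoc', div_mul_cancel₀ _ hO]
  have hχν : IsCoprime χ ν := IsCoprime.of_isCoprime_of_dvd_right hχ ⟨d, hd⟩
  obtain ⟨σ, hσ⟩ := rep_perm hc hχν h3
  rw [hL, map_sum, Finset.mul_sum, ← Equiv.sum_comp σ (fun i => X (c i) * ev (em (c i) / em ν)),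
    Finset.mul_sum]
  refine Finset.sum_congr rfl fun i _ => ?_
  have h1 : Pr (χ * c i) := h3.mul (hc.fx i)
  have h2 : X (c (σ i)) = X χ * X (c i) := by
    rw [← hX.per _ _ h1 (hσ i), hX.mul _ _ h3 (hc.fx i)]
  have h4 : ev (em (χ * c i) / em ν) = ev (em (c (σ i)) / em ν) := by
    have h5 := em_lat hX.ne (hσ i)
    have e : em (χ * c i) / em ν = em (c (σ i)) / em ν +
        (em (χ * c i) / em ν - em (c (σ i)) / em ν) := by ring
    rw [e, Rq.ev_add h5]
  rw [map_mul, hτX, hev2, h4, h2]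
  ring

/-- the characters have values `0`, `1`, `-1` -/
theorem sn_fix (τ : ℂ ≃+* ℂ) (t : ZMod 2) : τ (sn t) = sn t := by
  rcases sn_cases t with rfl | rfl
  · rw [sn_zero, map_one]
  · rw [sn_one, map_neg, map_one]

theorem cq_fix (τ : ℂ ≃+* ℂ) (q : Pg) (x : 𝓞 K8) : τ (cq q x) = cq q x := by
  rw [cq, map_intCast]

theorem X8_fix (τ : ℂ ≃+* ℂ) (k j : ZMod 2) (S : Finset Pg) (a : 𝓞 K8) :
    τ (X8 k j S a) = X8 k j S a := by
  rw [X8, map_mul, map_prod, th8, sn_fix]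
  congr 1
  exact Finset.prod_congr rfl fun q _ => cq_fix τ q a

end

end Pool.Agent.Lib.MP_1a91b9_ntW.F
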