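import Mathlib

/-!
# Half systems modulo a prime element and the lemma of Gauss, in a general ring

`HalfSys q c`: every element not divisible by `q` is congruent to exactly one of `c i`, `-c i`.
`exists_half`, `gauss_half`: the product of the values of an odd function.
-/

set_option autoImplicit false
set_option linter.unusedSectionVars false

namespace Pool.Agent.Lib.MP_1a91b9_ntW.F

open Ideal

noncomputable section

variable {O : Type} [CommRing O] [IsDomain O]

/-- A half system modulo `q`. -/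
structure HalfSys (q : O) {ι : Type} (c : ι → O) : Prop where
  nz : ∀ i, ¬ q ∣ c i
  ex : ∀ a, ¬ q ∣ a → ∃ i, q ∣ a - c i ∨ q ∣ a + c i
  inj : ∀ i j, (q ∣ c i - c j ∨ q ∣ c i + c j) → i = j

/-- a prime element, prime to `2`, with finite residue field -/
structure Pq (q : O) : Prop where
  pr : Prime q
  two : ¬ q ∣ (2 : O)
  fin : Finite (O ⧸ Ideal.span {q})

private theorem RB_mk {q a b : O} :
    Ideal.Quotient.mk (Ideal.span {q}) a = Ideal.Quotient.mk (Ideal.span {q}) b ↔ q ∣ a - b := by
  rw [Ideal.Quotient.eq, Ideal.mem_span_singleton]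

private theorem RB_mk0 {q a : O} :
    Ideal.Quotient.mk (Ideal.span {q}) a = 0 ↔ q ∣ a := by
  rw [Ideal.Quotient.eq_zero_iff_mem, Ideal.mem_span_singleton]

private theorem RB_two {q : O} (hq : Pq q) {a : O} (h : q ∣ 2 * a) : q ∣ a := by
  exact (hq.pr.dvd_or_dvd h).resolve_left hq.two

/-- the number of elements of a half system -/
theorem HalfSys.card {q : O} (hq : Pq q) {ι : Type} [Fintype ι] {c : ι → O} (h : HalfSys q c) :
    Nat.card (O ⧸ Ideal.span {q}) = 2 * Fintype.card ι + 1 := by
  have hf := hq.fin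
  have := Fintype.ofFinite (O ⧸ Ideal.span {q})
  rw [Nat.card_eq_fintype_card]
  have hb : Function.Bijective (fun x : Option (ι ⊕ ι) => match x with
      | none => (0 : O ⧸ Ideal.span {q})
      | some (Sum.inl i) => Ideal.Quotient.mk (Ideal.span {q}) (c i)
      | some (Sum.inr i) => Ideal.Quotient.mk (Ideal.span {q}) (-c i)) := by
    constructor
    · rintro (_ | x | x) (_ | y | y) hxy
      · rfl
      · exact absurd (RB_mk0.1 hxy.symm) (h.nz y)
      · exact absurd (RB_mk0.1 hxy.symm) (fun hh => h.nz y (by simpa using hh.neg_right))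
      · exact absurd (RB_mk0.1 hxy) (h.nz x)
      · rw [h.inj x y (Or.inl (RB_mk.1 hxy))]
      · exfalso
        have h1 : q ∣ c x + c y := by simpa using RB_mk.1 hxy
        have h2 := h.inj x y (Or.inr h1)
        subst h2
        exact h.nz x (RB_two hq (by rwa [two_mul (c x)]))
      · exact absurd (RB_mk0.1 hxy) (fun hh => h.nz x (by simpa using hh.neg_right))
      · exfalso
        have h1 : q ∣ -c x - c y := by simpa using RB_mk.1 hxy
        have h1' : q ∣ c x + c y := by
          have := h1.neg_right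
          have e : -(-c x - c y) = c x + c y := by ring
          rwa [e] at this
        have h2 := h.inj x y (Or.inr h1')
        subst h2
        exact h.nz x (RB_two hq (by rwa [two_mul (c x)]))
      · have h1 : q ∣ -c x - -c y := RB_mk.1 hxy
        have h1' : q ∣ c x - c y := by
          have := h1.neg_right
          have e : -(-c x - -c y) = c x - c y := by ring
          rwa [e] at this
        rw [h.inj x y (Or.inl h1')]
    · intro y
      obtain ⟨a, rfl⟩ := Ideal.Quotient.mk_surjective y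
      by_cases ha : q ∣ a
      · exact ⟨none, (RB_mk0.2 ha).symm⟩
      · obtain ⟨i, hi | hi⟩ := h.ex a ha
        · exact ⟨some (Sum.inl i), (RB_mk.2 hi).symm⟩
        · refine ⟨some (Sum.inr i), (RB_mk.2 ?_).symm⟩
          rwa [sub_neg_eq_add]
  have hc := Fintype.card_of_bijective hb
  rw [← hc, Fintype.card_option, Fintype.card_sum]
  ring

/-- half systems exist; the number of elements is `(Nat.card (O ⧸ Ideal.span {q}) - 1) / 2` -/
theorem exists_half {q : O} (hq : Pq q) : ∃ (ι : Type) (_ : Fintype ι) (c : ι → O), HalfSys q c ∧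
    Nat.card (O ⧸ Ideal.span {q}) = 2 * Fintype.card ι + 1 := by
  classical
  have hf := hq.fin
  have := Fintype.ofFinite (O ⧸ Ideal.span {q})
  obtain ⟨e⟩ := (⟨Fintype.equivFin (O ⧸ Ideal.span {q})⟩ :
    Nonempty ((O ⧸ Ideal.span {q}) ≃ Fin (Fintype.card (O ⧸ Ideal.span {q}))))
  have hout : ∀ x : O ⧸ Ideal.span {q}, ∃ a : O, Ideal.Quotient.mk (Ideal.span {q}) a = x :=
    Ideal.Quotient.mk_surjective
  choose g hg using hout
  have hne : ∀ x : O ⧸ Ideal.span {q}, x ≠ 0 → x ≠ -x := by
    intro x hx hxx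
    obtain ⟨a, rfl⟩ := Ideal.Quotient.mk_surjective x
    rw [← map_neg, RB_mk, sub_neg_eq_add, ← two_mul] at hxx
    exact hx (RB_mk0.2 (RB_two hq hxx))
  have hH : HalfSys q (fun x : {x : O ⧸ Ideal.span {q} // x ≠ 0 ∧ e x < e (-x)} =>
      g x.1) := by
    refine ⟨?_, ?_, ?_⟩
    · rintro ⟨x, hx, hx'⟩ hd
      exact hx (by rw [← hg x]; exact RB_mk0.2 hd)
    · intro a ha
      have hx : Ideal.Quotient.mk (Ideal.span {q}) a ≠ 0 := fun hh => ha (RB_mk0.1 hh)
      have hx1 := hne _ hx
      rcases lt_or_gt_of_ne (fun hh => hx1 (e.injective hh)) with h1 | h1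
      · exact ⟨⟨_, hx, h1⟩, Or.inl (RB_mk.1 (hg _).symm)⟩
      · refine ⟨⟨-Ideal.Quotient.mk (Ideal.span {q}) a, neg_ne_zero.2 hx, by rwa [neg_neg]⟩,
          Or.inr ?_⟩
        have h2 : Ideal.Quotient.mk (Ideal.span {q}) (-a) = Ideal.Quotient.mk (Ideal.span {q})
            (g (-Ideal.Quotient.mk (Ideal.span {q}) a)) := by
          rw [hg, map_neg]
        have h4 := (RB_mk.1 h2).neg_right
        have e1 : -(-a - g (-Ideal.Quotient.mk (Ideal.span {q}) a)) =
          a + g (-Ideal.Quotient.mk (Ideal.span {q}) a) := by ring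
        rw [e1] at h4
        exact h4
    · rintro ⟨x, hx, hx'⟩ ⟨y, hy, hy'⟩ (hd | hd)
      · have h1 := RB_mk.2 hd
        rw [hg, hg] at h1
        exact Subtype.ext h1
      · exfalso
        have h1 : Ideal.Quotient.mk (Ideal.span {q}) (g x) =
            Ideal.Quotient.mk (Ideal.span {q}) (-g y) := by
          rw [RB_mk, sub_neg_eq_add]
          exact hd
        rw [map_neg, hg, hg] at h1
        subst h1
        rw [neg_neg] at hx'
        exact lt_asymm hx' hy'
  exact ⟨_, inferInstance, _, hH, hH.card hq⟩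

/-- **The lemma of Gauss.** -/
theorem gauss_half {q : O} (hq : Pq q) {ι : Type} [Fintype ι] {c : ι → O} (h : HalfSys q c)
    (f : O → ℂ) (hper : ∀ a b, q ∣ a - b → f a = f b) (hodd : ∀ a, f (-a) = -f a)
    {χ : O} (hχ : ¬ q ∣ χ) :
    ∃ e : ℤ, (e = 1 ∨ e = -1) ∧ (e = 1 ↔ ∃ y, q ∣ y ^ 2 - χ) ∧
      ∏ i, f (χ * c i) = (e : ℂ) * ∏ i, f (c i) := by
  classical
  have hnd : ∀ i, ¬ q ∣ χ * c i := fun i hd =>
    (hq.pr.dvd_or_dvd hd).elim hχ (h.nz i)
  have hex : ∀ i, ∃ p : ι × ℤˣ, q ∣ χ * c i - (p.2 : ℤ) * c p.1 := by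
    intro i
    obtain ⟨j, hj | hj⟩ := h.ex _ (hnd i)
    · exact ⟨(j, 1), by simpa using hj⟩
    · exact ⟨(j, -1), by simpa using hj⟩
  choose P hP using hex
  -- the permutation
  have hinj : Function.Injective (fun i => (P i).1) := by
    intro i j hij
    have hij' : (P i).1 = (P j).1 := hij
    have h1 := hP i
    have h2 := hP j
    rw [hij'] at h1
    rcases Int.units_eq_one_or (P i).2 with ei | ei <;>
      rcases Int.units_eq_one_or (P j).2 with ej | ej <;> rw [ei] at h1 <;> rw [ej] at h2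
    · have h3 : q ∣ χ * (c i - c j) := by
        have h4 := dvd_sub h1 h2
        push_cast at h4
        have e : χ * c i - 1 * c (P j).1 - (χ * c j - 1 * c (P j).1) = χ * (c i - c j) := by ring
        rwa [e] at h4
      exact h.inj i j (Or.inl ((hq.pr.dvd_or_dvd h3).resolve_left hχ))
    · have h3 : q ∣ χ * (c i + c j) := by
        have h4 := dvd_add h1 h2
        push_cast at h4
        have e : χ * c i - 1 * c (P j).1 + (χ * c j - -1 * c (P j).1) = χ * (c i + c j) := by ring
        rwa [e] at h4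
      exact h.inj i j (Or.inr ((hq.pr.dvd_or_dvd h3).resolve_left hχ))
    · have h3 : q ∣ χ * (c i + c j) := by
        have h4 := dvd_add h1 h2
        push_cast at h4
        have e : χ * c i - -1 * c (P j).1 + (χ * c j - 1 * c (P j).1) = χ * (c i + c j) := by ring
        rwa [e] at h4
      exact h.inj i j (Or.inr ((hq.pr.dvd_or_dvd h3).resolve_left hχ))
    · have h3 : q ∣ χ * (c i - c j) := by
        have h4 := dvd_sub h1 h2
        push_cast at h4
        have e : χ * c i - -1 * c (P j).1 - (χ * c j - -1 * c (P j).1) = χ * (c i - c j) := by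
          ring
        rwa [e] at h4
      exact h.inj i j (Or.inl ((hq.pr.dvd_or_dvd h3).resolve_left hχ))
  have hbij : Function.Bijective (fun i => (P i).1) := Finite.injective_iff_bijective.1 hinj
  -- the product of the values
  have hf : ∀ i, f (χ * c i) = (((P i).2 : ℤ) : ℂ) * f (c (P i).1) := by
    intro i
    rw [hper _ _ (hP i)]
    rcases Int.units_eq_one_or (P i).2 with ei | ei <;> rw [ei]
    · simp
    · simp [hodd]
  have hprod : ∏ i, f (χ * c i) = (((∏ i, (P i).2 : ℤˣ) : ℤ) : ℂ) * ∏ i, f (c i) := by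
    rw [Finset.prod_congr rfl fun i _ => hf i, Finset.prod_mul_distrib,
      hbij.prod_comp (fun j => f (c j))]
    push_cast
    rfl
  -- the sign
  have hfin := hq.fin
  have := Fintype.ofFinite (O ⧸ Ideal.span {q})
  have hprime : (Ideal.span {q}).IsPrime :=
    (Ideal.span_singleton_prime hq.pr.ne_zero).2 hq.pr
  have hmax : (Ideal.span {q}).IsMaximal := Ideal.Quotient.maximal_of_isField _
    (Finite.isField_of_domain (O ⧸ Ideal.span {q}))
  let _ : Field (O ⧸ Ideal.span {q}) := Ideal.Quotient.field _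
  have hsgn : (Ideal.Quotient.mk (Ideal.span {q}) χ) ^ Fintype.card ι =
      (((∏ i, (P i).2 : ℤˣ) : ℤ) : O ⧸ Ideal.span {q}) := by
    have hmk : ∀ i, Ideal.Quotient.mk (Ideal.span {q}) χ * Ideal.Quotient.mk _ (c i) =
        (((P i).2 : ℤ) : O ⧸ Ideal.span {q}) * Ideal.Quotient.mk _ (c (P i).1) := by
      intro i
      rw [← map_mul, RB_mk.2 (hP i), map_mul, map_intCast]
    have h1 := Finset.prod_congr (rfl : (Finset.univ : Finset ι) = Finset.univ) fun i _ => hmk i
    rw [Finset.prod_mul_distrib, Finset.prod_mul_distrib, Finset.prod_const, Finset.card_univ,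
      hbij.prod_comp (fun j => Ideal.Quotient.mk (Ideal.span {q}) (c j))] at h1
    have h2 : ∏ j, Ideal.Quotient.mk (Ideal.span {q}) (c j) ≠ 0 :=
      Finset.prod_ne_zero_iff.2 fun j _ hj => h.nz j (RB_mk0.1 hj)
    have h3 := mul_right_cancel₀ h2 h1
    rw [h3]
    push_cast
    rfl
  have hodd2 : (1 : O ⧸ Ideal.span {q}) ≠ -1 := by
    intro h1
    have h2 : Ideal.Quotient.mk (Ideal.span {q}) 1 = Ideal.Quotient.mk (Ideal.span {q}) (-1) := by
      rw [map_neg, map_one]
      exact h1
    rw [RB_mk, sub_neg_eq_add] at h2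
    have e2 : (2 : O) * 1 = 1 + 1 := by norm_num
    have h3 : q ∣ (1 : O) := RB_two hq (e2 ▸ h2)
    exact hq.pr.not_isUnit (isUnit_of_dvd_one h3)
  have hchar : ringChar (O ⧸ Ideal.span {q}) ≠ 2 := by
    intro h2
    apply hodd2
    have h3 : ((2 : ℕ) : O ⧸ Ideal.span {q}) = 0 := (ringChar.spec _ 2).2 (by rw [h2])
    have h4 : (1 : O ⧸ Ideal.span {q}) + 1 = 0 := by
      rw [one_add_one_eq_two]
      exact_mod_cast h3
    linear_combination h4
  have hχ0 : Ideal.Quotient.mk (Ideal.span {q}) χ ≠ 0 := fun hh => hχ (RB_mk0.1 hh)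
  have hcard : Fintype.card (O ⧸ Ideal.span {q}) / 2 = Fintype.card ι := by
    rw [← Nat.card_eq_fintype_card, h.card hq]
    omega
  have hsq := FiniteField.isSquare_iff hchar hχ0
  rw [hcard, hsgn] at hsq
  refine ⟨((∏ i, (P i).2 : ℤˣ) : ℤ), ?_, ?_, hprod⟩
  · rcases Int.units_eq_one_or (∏ i, (P i).2) with e | e <;> rw [e] <;> simp
  · have hs : IsSquare (Ideal.Quotient.mk (Ideal.span {q}) χ) ↔ ∃ y, q ∣ y ^ 2 - χ := by
      constructor
      · rintro ⟨z, hz⟩
        obtain ⟨y, rfl⟩ := Ideal.Quotient.mk_surjective z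
        refine ⟨y, ?_⟩
        rw [← RB_mk, hz, map_pow, sq]
      · rintro ⟨y, hy⟩
        refine ⟨Ideal.Quotient.mk _ y, ?_⟩
        rw [← RB_mk] at hy
        rw [← hy, map_pow, sq]
    rw [← hs, hsq]
    rcases Int.units_eq_one_or (∏ i, (P i).2) with e | e <;> rw [e]
    · simp
    · push_cast
      constructor
      · intro h1
        norm_num at h1
      · intro h1
        exact absurd h1.symm hodd2

end

end Pool.Agent.Lib.MP_1a91b9_ntW.F
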