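import Pool.Agent.Lib.MP_1a91b9_ntW.F.PrdT
import Pool.Agent.Lib.MP_1a91b9_ntW.F.Half
import Pool.Agent.Lib.MP_1a91b9_ntW.F.ActW

/-!
# Phase 6, form T over `ℚ(√-2)`, file PrmW: the number attached to a prime

`prm_exists`: the product of the values of `ff = yy / xx` over a half system modulo `q`, divided by
a power of `√-2`.
-/

set_option autoImplicit false
set_option linter.unusedSectionVars false

namespace Pool.Agent.Lib.MP_1a91b9_ntW.F

open NumberField Finset Pool.Agent.Lib.MP_1a91b9_nuT Pool.Agent.Lib.MP_1a91b9_nuT.S3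
  Pool.Agent.Lib.MP_1a91b9_nuT.Ell
open Pool.Agent.Lib.MP_1a91b9_nuT.Rq (ev Rel)
open Pool.Agent.Lib.MP_1a91b9_ntQ (em em_add em_mul em_pow em_sub em_neg em_zero em_one em_ne em_prod
  em_ofNat em_intCast em_natCast em_inj)
open Pool.Agent.Lib.MP_1a91b9_ntH.R (qs qs_eq_one_iff qs_or)

noncomputable section

/-! ### The primes -/

theorem not_dvd_lamP (q : Pg) : ¬ q.1 ∣ lam := fun h =>
  Pg_not_lam q (q.2.1.associated_of_dvd lam_prime h).symm.dvd

theorem not_dvd_twoP (q : Pg) : ¬ q.1 ∣ (2 : 𝓞 K8) := by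
  rw [two_eq, dvd_neg]
  exact fun h => not_dvd_lamP q (q.2.1.dvd_of_dvd_pow h)

theorem pqW (q : Pg) : Pq q.1 :=
  ⟨q.2.1, not_dvd_twoP q, Ideal.finiteQuotientOfFreeOfNeBot _ (by
    rw [Ne, Ideal.span_singleton_eq_bot]
    exact q.2.1.ne_zero)⟩

theorem lam_dvd_sub_one (q : Pg) : lam ∣ q.1 - 1 := by
  rw [lam_dvd_iff, cp_sub, cp_one, Prod.fst_sub]
  have h := (Pr_iff.1 q.2.2).1
  dsimp only
  omega

theorem pe_oddW (q : Pg) : (em q.1 - 1) * pe ∈ PP.lattice := by
  obtain ⟨b, hb⟩ := lam_dvd_sub_one q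
  have e : (em q.1 - 1) * pe = em b := by
    have h1 : (em q.1 : ℂ) - 1 = (em (q.1 - 1) : ℂ) := by rw [em_sub, em_one]
    have h2 : em (lam * b) = lm * em b := em_mul lam b
    rw [h1, hb, h2]
    linear_combination em b * lm_mul_pe
  rw [e]
  exact em_mem8 b

/-! ### The systems of representatives -/

/-- the representatives of a half system -/
def rhoH {ι : Type} (c : ι → 𝓞 K8) : Option (ι ⊕ ι) → 𝓞 K8
  | none => 0
  | some (Sum.inl i) => c i
  | some (Sum.inr i) => -c i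

theorem rhoH_inj {q : 𝓞 K8} (hq : Pq q) {ι : Type} {c : ι → 𝓞 K8} (h : HalfSys q c) :
    ∀ i j, q ∣ rhoH c i - rhoH c j → i = j := by
  have htwo : ∀ a : 𝓞 K8, q ∣ 2 * a → q ∣ a := fun a ha =>
    (hq.pr.dvd_or_dvd ha).resolve_left hq.two
  rintro (_ | x | x) (_ | y | y) hxy
  · rfl
  · have h1 : q ∣ c y := by
      have e : rhoH c none - rhoH c (some (Sum.inl y)) = -c y := by
        show (0 : 𝓞 K8) - c y = -c y
        ring
      rw [e, dvd_neg] at hxy
      exact hxy
    exact absurd h1 (h.nz y)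
  · have h1 : q ∣ c y := by
      have e : rhoH c none - rhoH c (some (Sum.inr y)) = c y := by
        show (0 : 𝓞 K8) - -c y = c y
        ring
      rw [e] at hxy
      exact hxy
    exact absurd h1 (h.nz y)
  · have h1 : q ∣ c x := by
      have e : rhoH c (some (Sum.inl x)) - rhoH c none = c x := by
        show c x - (0 : 𝓞 K8) = c x
        ring
      rw [e] at hxy
      exact hxy
    exact absurd h1 (h.nz x)
  · rw [h.inj x y (Or.inl hxy)]
  · exfalso
    have h1 : q ∣ c x + c y := by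
      have e : rhoH c (some (Sum.inl x)) - rhoH c (some (Sum.inr y)) = c x + c y := by
        show c x - -c y = c x + c y
        ring
      rw [e] at hxy
      exact hxy
    have h2 := h.inj x y (Or.inr h1)
    subst h2
    exact h.nz x (htwo _ (by rwa [two_mul (c x)]))
  · have h1 : q ∣ c x := by
      have e : rhoH c (some (Sum.inr x)) - rhoH c none = -c x := by
        show -c x - (0 : 𝓞 K8) = -c x
        ring
      rw [e, dvd_neg] at hxy
      exact hxy
    exact absurd h1 (h.nz x)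
  · exfalso
    have h1 : q ∣ c x + c y := by
      have e : rhoH c (some (Sum.inr x)) - rhoH c (some (Sum.inl y)) = -(c x + c y) := by
        show -c x - c y = -(c x + c y)
        ring
      rw [e, dvd_neg] at hxy
      exact hxy
    have h2 := h.inj x y (Or.inr h1)
    subst h2
    exact h.nz x (htwo _ (by rwa [two_mul (c x)]))
  · have h1 : q ∣ c x - c y := by
      have e : rhoH c (some (Sum.inr x)) - rhoH c (some (Sum.inr y)) = -(c x - c y) := by
        show -c x - -c y = -(c x - c y)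
        ring
      rw [e, dvd_neg] at hxy
      exact hxy
    rw [h.inj x y (Or.inl h1)]

theorem rhoH_reps {q : 𝓞 K8} (hq : Pq q) {ι : Type} {c : ι → 𝓞 K8} (h : HalfSys q c) (x : 𝓞 K8) :
    ∃! i, q ∣ x - rhoH c i := by
  have hex : ∃ i, q ∣ x - rhoH c i := by
    by_cases hx : q ∣ x
    · refine ⟨none, ?_⟩
      have e : x - rhoH c none = x := by
        show x - 0 = x
        ring
      rwa [e]
    · obtain ⟨i, hi | hi⟩ := h.ex x hx
      · exact ⟨some (Sum.inl i), hi⟩
      · refine ⟨some (Sum.inr i), ?_⟩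
        have e : x - rhoH c (some (Sum.inr i)) = x + c i := by
          show x - -c i = x + c i
          ring
        rwa [e]
  obtain ⟨i, hi⟩ := hex
  refine ⟨i, hi, fun j hj => rhoH_inj hq h j i ?_⟩
  have e : rhoH c j - rhoH c i = (x - rhoH c i) - (x - rhoH c j) := by ring
  rw [e]
  exact dvd_sub hi hj

/-- the multiples of a half system -/
theorem half_smul (q : Pg) {ι : Type} {c : ι → 𝓞 K8} (h : HalfSys q.1 c) {u : 𝓞 K8}
    (hu : ¬ q.1 ∣ u) : HalfSys q.1 (fun i => u * c i) := by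
  have hcop : IsCoprime q.1 u := (q.2.1.irreducible.coprime_iff_not_dvd).2 hu
  obtain ⟨a, b, hab⟩ := hcop
  refine ⟨fun i hi => ?_, fun x hx => ?_, fun i j hij => ?_⟩
  · exact (q.2.1.dvd_or_dvd hi).elim hu (h.nz i)
  · have hbx : ¬ q.1 ∣ b * x := by
      intro hd
      apply hx
      have e : x = (a * x) * q.1 + u * (b * x) := by linear_combination (-x) * hab
      rw [e]
      exact dvd_add (Dvd.intro_left _ rfl) (hd.mul_left u)
    obtain ⟨i, hi | hi⟩ := h.ex _ hbx
    · refine ⟨i, Or.inl ?_⟩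
      have e : x - u * c i = (a * x) * q.1 + u * (b * x - c i) := by
        linear_combination (-x) * hab
      rw [e]
      exact dvd_add (Dvd.intro_left _ rfl) (hi.mul_left u)
    · refine ⟨i, Or.inr ?_⟩
      have e : x + u * c i = (a * x) * q.1 + u * (b * x + c i) := by
        linear_combination (-x) * hab
      rw [e]
      exact dvd_add (Dvd.intro_left _ rfl) (hi.mul_left u)
  · rcases hij with h1 | h1
    · rw [← mul_sub] at h1
      exact h.inj i j (Or.inl ((q.2.1.dvd_or_dvd h1).resolve_left hu))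
    · rw [← mul_add] at h1
      exact h.inj i j (Or.inr ((q.2.1.dvd_or_dvd h1).resolve_left hu))

/-! ### The functions -/

theorem two_em_notMemW {q a : 𝓞 K8} (hq : Prime q) (h2 : ¬ q ∣ 2) (ha : ¬ q ∣ a) :
    2 * (em a / em q) ∉ PP.lattice := by
  intro h
  have e : (2 : ℂ) * (em a / em q) = (em (2 * a) : ℂ) / em q := by
    have h1 : (em (2 * a) : ℂ) = em 2 * em a := em_mul _ _
    have h3 : em (2 : 𝓞 K8) = 2 := em_ofNat 2
    rw [h1, h3]
    ring
  rw [e] at h
  rcases hq.dvd_or_dvd (em_dvd hq.ne_zero h) with h1 | h1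
  · exact h2 h1
  · exact ha h1

theorem rel_ff {τ : ℂ ≃+* ℂ} {u w : ℂ} (h : Rel τ u w) (hu : 2 * u ∉ PP.lattice)
    (hw : 2 * w ∉ PP.lattice) : ff w = τ (ff u) := by
  rcases h with ⟨h1, -⟩ | ⟨-, -, h1, h2⟩
  · exact absurd (two_memT h1) hu
  · have a1 := ff_mul hw
    have a2 := congrArg τ (ff_mul hu)
    have a3 : yy w = τ (yy u) := by
      rw [yy, yy, h2, map_div₀, map_ofNat]
    have a4 : xx w = τ (xx u) := by
      rw [xx, xx, h1, map_div₀, map_add, map_ofNat, map_ofNat]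
    rw [map_mul, ← a4, ← a3, ← a1] at a2
    exact (mul_right_cancel₀ (xx_ne hw) a2).symm

theorem norm_lm_sqW : ‖lm‖ ^ 2 = 2 := by
  rw [← norm_pow, lm_sq, norm_neg]
  norm_num

theorem xx_diff (z : ℂ) : X z - X pe = 36 * xx z := by
  have h := xx_pe
  rw [xx] at h
  rw [xx]
  linear_combination (-36) * h

theorem ff_snW (s : ZMod 2) (z : ℂ) : ff (sn s * z) = sn s * ff z := by
  rcases sn_cases s with rfl | rfl
  · rw [sn_zero, one_mul, one_mul]
  · rw [sn_one, neg_one_mul, neg_one_mul, ff_neg]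

/-- the number of elements of a half system, modulo `2` -/
theorem card_half_mod (q : Pg) {m : ℕ}
    (h : Nat.card (𝓞 K8 ⧸ Ideal.span {q.1}) = 2 * m + 1) : m % 2 = (aa q.1).val := by
  rw [card_quot8 q.2.1.ne_zero] at h
  have h1 := Nz_four q
  rw [h] at h1
  have h01 : ∀ v : ZMod 2, v = 0 ∨ v = 1 := by decide
  have h1v : ((1 : ZMod 2)).val = 1 := rfl
  rcases h01 (aa q.1) with h2 | h2
  · rw [h2, ZMod.val_zero] at h1 ⊢
    have h3 : ((2 * m : ℕ) : ZMod 4) = 0 := by
      push_cast at h1 ⊢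
      linear_combination h1
    rw [ZMod.natCast_eq_zero_iff] at h3
    omega
  · rw [h2, h1v] at h1 ⊢
    have h3 : ((2 * m + 2 : ℕ) : ZMod 4) = 0 := by
      push_cast at h1 ⊢
      have h4 : (4 : ZMod 4) = 0 := by decide
      linear_combination h1 + h4
    rw [ZMod.natCast_eq_zero_iff] at h3
    omega

/-- the product of the values of `ff` over a half system -/
theorem norm_half (q : Pg) {ι : Type} [Fintype ι] {c : ι → 𝓞 K8} (h : HalfSys q.1 c) :
    ‖em q.1‖ ^ 2 * ‖∏ i, ff (em (c i) / em q.1)‖ ^ 4 = 8 ^ Fintype.card ι := by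
  classical
  have hq0 := q.2.1.ne_zero
  have hnl : ∀ a : 𝓞 K8, ¬ q.1 ∣ a → 2 * (em a / em q.1) ∉ PP.lattice := fun a ha =>
    two_em_notMemW q.2.1 (not_dvd_twoP q) ha
  have hH := half_smul q h (not_dvd_lamP q)
  have hk : ∀ z, 2 * z ∉ PP.lattice → (X (z + pe) - X pe) * (X z - X pe) = 2592 := by
    intro z hz
    rw [xx_diff, xx_diff]
    linear_combination 1296 * xx_add_pe hz
  have h1 := norm_prodT (k := 2592) (two_pe_mem (hq := q8)) (pe_notMem (hq := q8)) (by norm_num) hk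
    (ρ := rhoH fun i => lam * c i) hq0 (pe_oddW q) (rhoH_reps (pqW q) hH) (i0 := none) rfl
  have herase : (Finset.univ.erase none : Finset (Option (ι ⊕ ι))) =
      Finset.univ.map Function.Embedding.some := by
    ext x
    cases x <;> simp
  have hcard : Fintype.card (Option (ι ⊕ ι)) - 1 = 2 * Fintype.card ι := by
    rw [Fintype.card_option, Fintype.card_sum, Nat.add_sub_cancel, two_mul]
  rw [hcard, herase, Finset.prod_map, _root_.norm_prod] at h1
  have hv : ∀ i : ι, ‖X (em (lam * c i) / em q.1) - X pe‖ = 18 * ‖ff (em (c i) / em q.1)‖ ^ 2 := by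
    intro i
    have hz := hnl _ (h.nz i)
    have h4 := ff_sq hz
    have h5 : lm * (em (c i) / em q.1) = em (lam * c i) / em q.1 := by
      have h6 : em (lam * c i) = lm * em (c i) := em_mul lam (c i)
      rw [h6, mul_div_assoc]
    rw [h5] at h4
    have h6 : X (em (lam * c i) / em q.1) - X pe = -18 * ff (em (c i) / em q.1) ^ 2 := by
      rw [xx_diff, h4]
      ring
    rw [h6, norm_mul, norm_pow, norm_neg]
    norm_num
  have hprod : ∏ p : ι ⊕ ι, ‖X (em (rhoH (fun i => lam * c i) (Function.Embedding.some p)) /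
      em q.1) - X pe‖ = 18 ^ (2 * Fintype.card ι) * ‖∏ i, ff (em (c i) / em q.1)‖ ^ 4 := by
    rw [Fintype.prod_sum_type]
    have e1 : ∀ i : ι, ‖X (em (rhoH (fun i => lam * c i) (Function.Embedding.some (Sum.inl i))) /
        em q.1) - X pe‖ = 18 * ‖ff (em (c i) / em q.1)‖ ^ 2 := fun i => hv i
    have e2 : ∀ i : ι, ‖X (em (rhoH (fun i => lam * c i) (Function.Embedding.some (Sum.inr i))) /
        em q.1) - X pe‖ = 18 * ‖ff (em (c i) / em q.1)‖ ^ 2 := by
      intro i
      rw [← hv i]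
      have e3 : em (rhoH (fun i => lam * c i) (Function.Embedding.some (Sum.inr i))) / em q.1 =
          -(em (lam * c i) / em q.1) := by
        have e4 : em (-(lam * c i)) = -em (lam * c i) := em_neg _
        show em (-(lam * c i)) / em q.1 = _
        rw [e4, neg_div]
      rw [e3, Ell.X_neg]
    rw [Finset.prod_congr rfl fun i _ => e1 i, Finset.prod_congr rfl fun i _ => e2 i,
      Finset.prod_mul_distrib, Finset.prod_const, Finset.card_univ, _root_.norm_prod,
      Finset.prod_pow]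
    ring
  rw [hprod] at h1
  obtain ⟨A, hA⟩ : ∃ A, A = ‖∏ i, ff (em (c i) / em q.1)‖ := ⟨_, rfl⟩
  obtain ⟨B, hB⟩ : ∃ B, B = ‖em q.1‖ := ⟨_, rfl⟩
  rw [← hA, ← hB] at h1 ⊢
  have hA0 : 0 ≤ A := by rw [hA]; exact norm_nonneg _
  have hn : ‖(2592 : ℂ)‖ = 2592 := by norm_num
  rw [hn, mul_comm 2 (Fintype.card ι), pow_mul (2592 : ℝ)] at h1
  have h2 : B ^ 2 * (18 ^ (Fintype.card ι * 2) * A ^ 4) = 2592 ^ Fintype.card ι :=
    (pow_left_inj₀ (by positivity) (by positivity) (by norm_num)).1 h1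
  have h18 : (18 : ℝ) ^ (Fintype.card ι * 2) ≠ 0 := pow_ne_zero _ (by norm_num)
  apply mul_left_cancel₀ h18
  have e : (2592 : ℝ) ^ Fintype.card ι = 18 ^ (Fintype.card ι * 2) * 8 ^ Fintype.card ι := by
    rw [mul_comm _ 2, pow_mul, ← mul_pow]
    norm_num
  rw [← e, ← h2]
  ring

/-- **The number attached to a prime.** -/
theorem prm_exists (q : Pg) : ∃ h : ℂ, h ≠ 0 ∧ ‖h‖ ^ 4 * ‖em q.1‖ ^ 2 = 2 ^ (aa q.1).val ∧
    ∀ (τ : ℂ ≃+* ℂ) (_ : Rq.Fix τ) (c : 𝓞 K8) (s : ZMod 2) (M : ℕ), 0 < M →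
      q.1 ∣ (M : 𝓞 K8) → (∀ a : 𝓞 K8, Rel τ (em a / M) (sn s * (em (c * a) / M))) →
      ¬ q.1 ∣ c → τ h = sn (aa q.1 * s) * cq q c * h := by
  classical
  obtain ⟨ι, _, c, hc, hn⟩ := exists_half (pqW q)
  have hq0 := q.2.1.ne_zero
  have hl0 : lm ≠ 0 := lm_ne (hq := q8)
  have hnl : ∀ a : 𝓞 K8, ¬ q.1 ∣ a → 2 * (em a / em q.1) ∉ PP.lattice := fun a ha =>
    two_em_notMemW q.2.1 (not_dvd_twoP q) ha
  have hmod := card_half_mod q hn
  have hx0 : ∀ i, ff (em (c i) / em q.1) ≠ 0 := fun i => ff_ne (hnl _ (hc.nz i))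
  have hg0 : ∏ i, ff (em (c i) / em q.1) ≠ 0 := Finset.prod_ne_zero_iff.2 fun i _ => hx0 i
  obtain ⟨e, he⟩ : ∃ e, e = 3 * Fintype.card ι / 2 := ⟨_, rfl⟩
  refine ⟨(∏ i, ff (em (c i) / em q.1)) / lm ^ e, div_ne_zero hg0 (pow_ne_zero _ hl0), ?_, ?_⟩
  · have h1 := norm_half q hc
    have hlm : ‖lm‖ ≠ 0 := norm_ne_zero_iff.2 hl0
    have h4 : (‖lm‖ ^ e) ^ 4 = 4 ^ e := by
      rw [← pow_mul, mul_comm e 4, pow_mul, show ‖lm‖ ^ 4 = (‖lm‖ ^ 2) ^ 2 by ring, norm_lm_sqW]
      norm_num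
    rw [norm_div, norm_pow, div_pow, h4]
    have h5 : (8 : ℝ) ^ Fintype.card ι = 2 ^ (aa q.1).val * 4 ^ e := by
      have e8 : (8 : ℝ) = 2 ^ 3 := by norm_num
      have e4 : (4 : ℝ) = 2 ^ 2 := by norm_num
      rw [e8, e4, ← pow_mul, ← pow_mul, ← pow_add]
      congr 1
      omega
    have h6 : (4 : ℝ) ^ e ≠ 0 := pow_ne_zero _ (by norm_num)
    rw [div_mul_eq_mul_div, div_eq_iff h6, ← h5, ← h1]
    ring
  · rintro τ hτ χ s M hM ⟨d, hd⟩ hR hχ
    have hM0 : (M : ℂ) ≠ 0 := by exact_mod_cast hM.ne'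
    have hMe : em (M : 𝓞 K8) = M := em_natCast M
    have hdM : em q.1 * em d = M := by
      have h1 : em (q.1 * d) = em q.1 * em d := em_mul _ _
      rw [← h1, ← hd, hMe]
    have hd0 : em d ≠ 0 := right_ne_zero_of_mul (hdM ▸ hM0)
    have hf : ∀ a : 𝓞 K8, em a / em q.1 = em (a * d) / M := by
      intro a
      have h1 : em (a * d) = em a * em d := em_mul _ _
      rw [← hdM, h1, mul_div_mul_right _ _ hd0]
    have h1 : ∀ a : 𝓞 K8, ¬ q.1 ∣ a →
        τ (ff (em a / em q.1)) = sn s * ff (em (χ * a) / em q.1) := by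
      intro a ha
      have ha' : ¬ q.1 ∣ χ * a := fun h => (q.2.1.dvd_or_dvd h).elim hχ ha
      have e1 : em (χ * (a * d)) / M = em (χ * a) / em q.1 := by
        rw [hf, mul_assoc]
      have h2 := hR (a * d)
      rw [← hf, e1] at h2
      have h3 : 2 * (sn s * (em (χ * a) / em q.1)) ∉ PP.lattice := by
        intro h4
        apply hnl _ ha'
        rcases sn_neg_cases s (em (χ * a) / em q.1) with h5 | h5
        · rwa [h5] at h4
        · rw [h5, mul_neg] at h4
          simpa using neg_mem h4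
      rw [← rel_ff h2 (hnl _ ha) h3, ff_snW]
    have hlt : τ lm = lm := hτ
    have hper : ∀ a b : 𝓞 K8, q.1 ∣ a - b → ff (em a / em q.1) = ff (em b / em q.1) :=
      fun a b hab => ff_congr (em_lat hq0 hab)
    have hodd : ∀ a : 𝓞 K8, ff (em (-a) / em q.1) = -ff (em a / em q.1) := by
      intro a
      have e1 : em (-a) = -em a := em_neg a
      rw [e1, neg_div, ff_neg]
    obtain ⟨ε, he1, he2, he3⟩ := gauss_half (pqW q) hc (fun a => ff (em a / em q.1)) hper hodd hχ
    have hε : (ε : ℂ) = cq q χ := by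
      rw [cq, qc_of_not hχ]
      congr 1
      rcases he1 with h2 | h2
      · rw [h2, (qs_eq_one_iff _ _).2 (he2.1 h2)]
      · rcases qs_or χ q.1 with h3 | h3
        · have h4 := he2.2 ((qs_eq_one_iff _ _).1 h3)
          rw [h2] at h4
          norm_num at h4
        · rw [h2, h3]
    have hs : sn s ^ Fintype.card ι = sn (aa q.1 * s) := by
      have h01 : ∀ v : ZMod 2, v = 0 ∨ v = 1 := by decide
      have h1v : ((1 : ZMod 2)).val = 1 := rfl
      have hss := sn_mul_self s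
      obtain ⟨n, hn'⟩ : ∃ n, Fintype.card ι = 2 * n + (aa q.1).val :=
        ⟨Fintype.card ι / 2, by omega⟩
      rw [hn', pow_add, pow_mul, pow_two, hss, one_pow, one_mul]
      rcases h01 (aa q.1) with h2 | h2
      · rw [h2, ZMod.val_zero, pow_zero, zero_mul, sn_zero]
      · rw [h2, h1v, pow_one, one_mul]
    rw [map_div₀, map_prod, map_pow, hlt, Finset.prod_congr rfl fun i _ => h1 (c i) (hc.nz i),
      Finset.prod_mul_distrib, Finset.prod_const, Finset.card_univ, he3, hs, hε]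
    ring

end

end Pool.Agent.Lib.MP_1a91b9_ntW.F
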