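import Pool.Agent.Lib.MP_1a91b9_ntW.R.Sy8

/-!
# Phase 6, form T over `ℚ(√-2)`, file SqfW: the squarefree elements are the `dW k j S`
-/

set_option autoImplicit false

namespace Pool.Agent.Lib.MP_1a91b9_ntW.F

open NumberField Finset

noncomputable section

theorem dvd_DD_iff {q : Pg} {S : Finset Pg} : q.1 ∣ DD S ↔ q ∈ S := by
  constructor
  · intro h
    rw [DD] at h
    obtain ⟨p, hp, h1⟩ := (q.2.1.dvd_finsetProd_iff (fun q : Pg => q.1)).1 h
    rw [Pg_eq h1]
    exact hp
  · intro h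
    exact dvd_prod_of_mem (fun q : Pg => q.1) h

theorem lam_not_DD (S : Finset Pg) : ¬ lam ∣ DD S := (Pr_DD S).odd

theorem zm_cases (x : ZMod 2) : x = 0 ∨ x = 1 := by
  revert x
  decide

theorem val_one2 : (1 : ZMod 2).val = 1 := rfl

theorem neg_pow_unit (k : ZMod 2) : (-1 : 𝓞 K8) ^ k.val * (-1) ^ k.val = 1 := by
  rw [← mul_pow, neg_mul_neg, one_mul, one_pow]

theorem isUnit_neg_pow (k : ZMod 2) : IsUnit ((-1 : 𝓞 K8) ^ k.val) :=
  IsUnit.of_mul_eq_one _ (neg_pow_unit k)

theorem neg_pow_add (k l : ZMod 2) : (-1 : 𝓞 K8) ^ (k + l).val = (-1) ^ k.val * (-1) ^ l.val := by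
  rcases zm_cases k with rfl | rfl <;> rcases zm_cases l with rfl | rfl
  · rw [add_zero, ZMod.val_zero, pow_zero, one_mul]
  · rw [zero_add, ZMod.val_zero, pow_zero, one_mul]
  · rw [add_zero, ZMod.val_zero, pow_zero, mul_one]
  · have h : (1 + 1 : ZMod 2) = 0 := rfl
    rw [h, ZMod.val_zero, val_one2, pow_zero, pow_one, neg_mul_neg, one_mul]

theorem lam_dvd_dW {k j : ZMod 2} {S : Finset Pg} : lam ∣ dW k j S ↔ j = 0 := by
  constructor
  · intro h
    rcases zm_cases j with hj | hj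
    · exact hj
    · exfalso
      rw [dW, hj, val_one2, Nat.sub_self, pow_zero, mul_one] at h
      rcases lam_prime.dvd_or_dvd h with h1 | h1
      · exact lam_prime.not_isUnit (isUnit_of_dvd_unit h1 (isUnit_neg_pow k))
      · exact lam_not_DD S h1
  · rintro rfl
    rw [dW, ZMod.val_zero, Nat.sub_zero, pow_one]
    exact (dvd_mul_left lam _).mul_right _

theorem q_dvd_dW {k j : ZMod 2} {S : Finset Pg} {q : Pg} : q.1 ∣ dW k j S ↔ q ∈ S := by
  constructor
  · intro h
    rw [dW] at h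
    rcases q.2.1.dvd_or_dvd h with h1 | h1
    · exfalso
      rcases q.2.1.dvd_or_dvd h1 with h2 | h2
      · exact q.2.1.not_isUnit (isUnit_of_dvd_unit h2 (isUnit_neg_pow k))
      · have h3 := q.2.1.dvd_of_dvd_pow h2
        obtain ⟨u, hu⟩ := (q.2.1.dvd_prime_iff_associated lam_prime).1 h3
        exact Pg_not_lam q ⟨(u⁻¹ : (𝓞 K8)ˣ), by rw [← hu, mul_assoc, Units.mul_inv, mul_one]⟩
    · exact dvd_DD_iff.1 h1
  · intro h
    exact (dvd_DD_iff.2 h).mul_left _

theorem dW_ne1 (k j : ZMod 2) (S : Finset Pg) : dW k j S ≠ 0 := by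
  rw [dW]
  exact mul_ne_zero (mul_ne_zero (pow_ne_zero _ (neg_ne_zero.2 one_ne_zero))
    (pow_ne_zero _ lam_ne_zero)) (DD_ne S)

theorem dW_inj {k k' j j' : ZMod 2} {S S' : Finset Pg} (h : dW k j S = dW k' j' S') :
    k = k' ∧ j = j' ∧ S = S' := by
  have hj : j = j' := by
    have h1 : j = 0 ↔ j' = 0 := by
      rw [← lam_dvd_dW (k := k) (S := S), h, lam_dvd_dW]
    rcases zm_cases j with h2 | h2 <;> rcases zm_cases j' with h3 | h3
    · rw [h2, h3]
    · exact absurd (h1.1 h2) (by rw [h3]; decide)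
    · exact absurd (h1.2 h3) (by rw [h2]; decide)
    · rw [h2, h3]
  have hS : S = S' := by
    ext q
    rw [← q_dvd_dW (k := k) (j := j), h, q_dvd_dW]
  refine ⟨?_, hj, hS⟩
  subst hj hS
  rw [dW, dW] at h
  have h1 := mul_right_cancel₀ (pow_ne_zero _ lam_ne_zero) (mul_right_cancel₀ (DD_ne S) h)
  have h0 : (1 : 𝓞 K8) ≠ -1 := by
    intro h2
    have h3 : (2 : 𝓞 K8) = 0 := by linear_combination h2
    have h4 := lam_sq
    rw [h3, neg_zero] at h4
    exact lam_ne_zero (pow_eq_zero_iff two_ne_zero |>.1 h4)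
  rcases zm_cases k with h2 | h2 <;> rcases zm_cases k' with h3 | h3
  · rw [h2, h3]
  · rw [h2, h3, ZMod.val_zero, val_one2, pow_zero, pow_one] at h1
    exact absurd h1 h0
  · rw [h2, h3, ZMod.val_zero, val_one2, pow_zero, pow_one] at h1
    exact absurd h1.symm h0
  · rw [h2, h3]

theorem exists_dW {d : 𝓞 K8} (hd : Squarefree d) : ∃ (k j : ZMod 2) (S : Finset Pg),
    d = dW k j S := by
  have hpid : IsPrincipalIdealRing (𝓞 K8) := pidK8
  revert hd
  refine WfDvdMonoid.induction_on_irreducible (motive := fun d : 𝓞 K8 => Squarefree d →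
    ∃ (k j : ZMod 2) (S : Finset Pg), d = dW k j S) d ?_ ?_ ?_
  · intro h
    exact absurd h not_squarefree_zero
  · intro u hu _
    rcases isUnit_iff.1 hu with rfl | rfl
    · refine ⟨0, 1, ∅, ?_⟩
      rw [dW, DD_empty, ZMod.val_zero, val_one2, pow_zero, Nat.sub_self, pow_zero, mul_one, mul_one]
    · refine ⟨1, 1, ∅, ?_⟩
      rw [dW, DD_empty, val_one2, pow_one, Nat.sub_self, pow_zero, mul_one, mul_one]
  · intro a i ha hi ih hsq
    have ha' : Squarefree a := hsq.of_mul_right
    have hip : Prime i := hi.prime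
    obtain ⟨k, j, S, hkj⟩ := ih ha'
    have hni : ¬ i ∣ a := by
      rintro ⟨b, hb⟩
      exact hip.not_isUnit (hsq i ⟨b, by rw [hb]; ring⟩)
    by_cases hl : lam ∣ i
    · -- the prime above `2`
      obtain ⟨u, hu⟩ := (lam_prime.dvd_prime_iff_associated hip).1 hl
      have hl' : ¬ lam ∣ a := by
        intro h
        apply hni
        rw [← hu]
        obtain ⟨b, hb⟩ := h
        exact ⟨(u⁻¹ : (𝓞 K8)ˣ) * b, by
          rw [hb]
          linear_combination (-(lam * b)) * Units.mul_inv u⟩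
      have hj : j = 1 := by
        rcases zm_cases j with h | h
        · exact absurd (by rw [hkj, h]; exact lam_dvd_dW.2 rfl) hl'
        · exact h
      rcases isUnit_iff.1 u.isUnit with h1 | h1
      · refine ⟨k, 0, S, ?_⟩
        rw [← hu, h1, hkj, hj, dW, dW, val_one2, ZMod.val_zero, Nat.sub_self, Nat.sub_zero]
        ring
      · refine ⟨k + 1, 0, S, ?_⟩
        rw [← hu, h1, hkj, hj, dW, dW, neg_pow_add, val_one2, ZMod.val_zero, Nat.sub_self,
          Nat.sub_zero]
        ring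
    · -- an odd prime
      obtain ⟨q, hq⟩ := exists_Pg hip hl
      have hqi : q.1 ∣ i := by
        rcases hq with h | h
        · rw [h]
        · rw [h, neg_dvd]
      have hiq : i ∣ q.1 := by
        rcases hq with h | h
        · rw [h]
        · rw [h, dvd_neg]
      have hqS : q ∉ S := by
        intro h
        apply hni
        rw [hkj]
        exact hiq.trans (q_dvd_dW.2 h)
      rcases hq with h1 | h1
      · refine ⟨k, j, insert q S, ?_⟩
        rw [hkj, dW, dW, DD_insert hqS, h1]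
        ring
      · refine ⟨k + 1, j, insert q S, ?_⟩
        rw [hkj, dW, dW, DD_insert hqS, h1, neg_pow_add, val_one2]
        ring

theorem dW_squarefree (k j : ZMod 2) (S : Finset Pg) : Squarefree (dW k j S) := by
  intro p hp
  by_contra hu
  have hp0 : p ≠ 0 := by
    rintro rfl
    rw [mul_zero, zero_dvd_iff] at hp
    exact dW_ne1 k j S hp
  have hpid : IsPrincipalIdealRing (𝓞 K8) := pidK8
  obtain ⟨r, hr, hrp⟩ := WfDvdMonoid.exists_irreducible_factor hu hp0
  have hr' : Prime r := hr.prime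
  have h2 : r * r ∣ dW k j S := (mul_dvd_mul hrp hrp).trans hp
  have h3 : r * r ∣ lam ^ (1 - j.val) * DD S := by
    have h4 : lam ^ (1 - j.val) * DD S = (-1) ^ k.val * dW k j S := by
      rw [dW]
      linear_combination (-(lam ^ (1 - j.val) * DD S)) * neg_pow_unit k
    rw [h4]
    exact h2.mul_left _
  by_cases hl : lam ∣ r
  · have h4 : lam * lam ∣ lam ^ (1 - j.val) * DD S := (mul_dvd_mul hl hl).trans h3
    rcases zm_cases j with h | h
    · rw [h, ZMod.val_zero, Nat.sub_zero, pow_one] at h4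
      exact lam_not_DD S ((mul_dvd_mul_iff_left lam_ne_zero).1 h4)
    · rw [h, val_one2, Nat.sub_self, pow_zero, one_mul] at h4
      exact lam_not_DD S ((dvd_mul_right lam lam).trans h4)
  · obtain ⟨q, hq⟩ := exists_Pg hr' hl
    have hqr : q.1 ∣ r := by
      rcases hq with h | h
      · rw [h]
      · rw [h, neg_dvd]
    have h4 : q.1 * q.1 ∣ dW k j S := (mul_dvd_mul hqr hqr).trans h2
    have hqS : q ∈ S := q_dvd_dW.1 ((dvd_mul_right _ _).trans h4)
    obtain ⟨S', hS', rfl⟩ : ∃ S', q ∉ S' ∧ S = insert q S' :=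
      ⟨S.erase q, notMem_erase q S, (insert_erase hqS).symm⟩
    have h5 : dW k j (insert q S') = q.1 * dW k j S' := by
      rw [dW, dW, DD_insert hS']
      ring
    rw [h5] at h4
    exact hS' (q_dvd_dW.1 ((mul_dvd_mul_iff_left q.2.1.ne_zero).1 h4))

end

end Pool.Agent.Lib.MP_1a91b9_ntW.F
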