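import Pool.Agent.Lib.MP_1a91b9_ntW.F.FormW
import Pool.Agent.Lib.MP_1a91b9_ntW.F.PrmW
import Pool.Agent.Lib.MP_1a91b9_ntW.F.SqfW
import Pool.Agent.Lib.MP_1a91b9_ntW.T.TamP
import Pool.Agent.Lib.MP_1a91b9_ntW.C.TorsW
import Pool.Agent.Lib.MP_1a91b9_ntW.CV.Glob

/-!
# Phase 6, form T over `ℚ(√-2)`, file BsdW: the conjecture of Birch and Swinnerton-Dyer modulo `2`

`bsdW (hS : SerH)`: for every squarefree `d` in `𝓞 K8`.
-/

set_option autoImplicit false
set_option linter.unusedSectionVars false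

namespace Pool.Agent.Lib.MP_1a91b9_ntW.F

open NumberField IsDedekindDomain Finset WeierstrassCurve
open Pool.Agent.Lib.MP_1a91b9_ntT.S9 (tam normFactor period minChange)
open Pool.Agent.Lib.MP_1a91b9_ntT3.S9 (ShaP)
open Pool.Agent.Lib.MP_1a91b9_ntS (BSDMod)
open Pool.Agent.Lib.MP_1a91b9_ntW.C (IsS mu tq two_tors tq_notMem neg_one_K8 z8 z8_sq mu_mu neg_tq
  tq_ne tq_add_self ptsW gW_of_sha)
open scoped Classical

noncomputable section

/-! ### The local factors -/

theorem prmH : PrmH := prm_exists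

theorem tamH : TamH := by
  intro k j S
  rw [Pool.Agent.Lib.MP_1a91b9_ntW.T.finprod_tam k j S, EW]
  congr 1
  rw [Pool.Agent.Lib.MP_1a91b9_ntW.T.cL, tW]
  rcases sn_cases j with hj | hj
  · rw [if_pos hj, if_pos hj]
  · have h0 : ¬ j = 0 := by rw [hj]; decide
    rw [if_neg h0, if_neg h0]
    rcases sn_cases (AS S) with h | h
    · rw [if_pos h, if_neg (by rw [h]; decide)]
    · rw [if_neg (by rw [h]; decide), if_pos h]

theorem perH : PerH := by
  intro k j S
  rw [period, Pool.Agent.Lib.MP_1a91b9_ntW.T.finprod_nf k j S,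
    Pool.Agent.Lib.MP_1a91b9_ntW.T.prod_perAt8 (dW_ne0 k j S)]
  congr 1
  have h : nW k j S = (Pool.Agent.Lib.MP_1a91b9_ntW.T.nL k j S : ℤ) := by
    rw [nW, Pool.Agent.Lib.MP_1a91b9_ntW.T.nL]
    rcases sn_cases j with hj | hj
    · have h1 : ¬ j = 1 := by rw [hj]; decide
      rw [if_neg h1, if_neg h1]
      by_cases h2 : AS S = 1 ∧ k = 1
      · rw [if_pos h2, if_pos ⟨hj, h2.2, h2.1⟩]
        rfl
      · rw [if_neg h2, if_neg fun h3 => h2 ⟨h3.2.2, h3.2.1⟩]
        rfl
    · rw [if_pos hj, if_pos hj]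
      rfl
  rw [h, zpow_natCast]

/-! ### The torsion -/

section
variable {N : Type*} [Field N] [CharZero N] {W : Affine N} {d z : N}

/-- a point killed by a power of `2` -/
theorem pow_tors (h : IsS W z d) (hm : ¬ IsSquare (-1 : N)) (n : ℕ) :
    ∀ P : W.Point, 2 ^ n • P = 0 → P = 0 ∨ P = tq h := by
  induction n with
  | zero =>
    intro P hP
    rw [pow_zero, one_smul] at hP
    exact Or.inl hP
  | succ n ih =>
    intro P hP
    have h1 : 2 ^ n • (2 • P) = 0 := by rw [smul_smul, ← pow_succ, hP]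
    rcases ih _ h1 with h2 | h2
    · exact two_tors h hm P h2
    · exfalso
      refine tq_notMem h hm ⟨mu h P, ?_⟩
      rw [mu_mu, h2, neg_tq]

theorem card_prim (h : IsS W z d) (hm : ¬ IsSquare (-1 : N)) :
    Nat.card (AddCommGroup.primaryComponent W.Point 2) = 2 := by
  have hset : (AddCommGroup.primaryComponent W.Point 2 : Set W.Point) = {0, tq h} := by
    ext P
    simp only [SetLike.mem_coe, Set.mem_insert_iff, Set.mem_singleton_iff]
    constructor
    · rintro ⟨j, hj⟩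
      exact pow_tors h hm j P hj
    · rintro (rfl | rfl)
      · exact zero_mem _
      · refine ⟨1, ?_⟩
        rw [pow_one, two_smul, tq_add_self]
  have h1 : Nat.card (AddCommGroup.primaryComponent W.Point 2) =
      (AddCommGroup.primaryComponent W.Point 2 : Set W.Point).ncard := rfl
  rw [h1, hset, Set.ncard_pair (tq_ne h).symm]

end

/-- **The 2-primary part of the points** has two elements. -/
theorem card_prim8 {d : 𝓞 K8} (hd : d ≠ 0) :
    Nat.card (AddCommGroup.primaryComponent (WW d).toAffine.Point 2) = 2 := by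
  have h : IsS (WW d).toAffine z8 ((d : 𝓞 K8) : K8) :=
    ⟨rfl, z8_sq, Pool.Agent.Lib.MP_1a91b9_ntV.C.coe_ne hd⟩
  exact card_prim h neg_one_K8

/-- the descent, both directions -/
theorem critW (k j : ZMod 2) (S : Finset Pg) : GW k j S ≠ 0 ↔
    Finite (WW (dW k j S)).toAffine.Point ∧ Nat.card (ShaP 2 (WW (dW k j S))) = 1 := by
  constructor
  · intro h
    have h1 := ptsW h
    exact ⟨h1.1, h1.2.2⟩
  · rintro ⟨h1, h2⟩
    exact gW_of_sha rfl h1 h2

/-! ### The result -/

/-- **The conjecture of Birch and Swinnerton-Dyer modulo `2`** for every squarefree `d`. -/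
theorem bsdW (hS : SerH) : ∃ q : 𝓞 K8 → ℚ, (∀ d : 𝓞 K8, Squarefree d → BSDMod 2 (WW d) (q d)) ∧
    ∀ (k j : ZMod 2) (S : Finset Pg), (¬ (2 : ℤ) ∣ (q (dW k j S)).num ↔ GW k j S ≠ 0) := by
  have key : ∀ d : 𝓞 K8, ∃ q : ℚ, (Squarefree d → BSDMod 2 (WW d) q) ∧
      ∀ (k j : ZMod 2) (S : Finset Pg), d = dW k j S → (¬ (2 : ℤ) ∣ q.num ↔ GW k j S ≠ 0) := by
    intro d
    by_cases hd : Squarefree d
    swap
    · refine ⟨0, fun h => absurd h hd, fun k j S h => ?_⟩
      exact absurd (h ▸ dW_squarefree k j S) hd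
    obtain ⟨k, j, S, hkj⟩ := exists_dW hd
    obtain ⟨q, hq1, hq2⟩ := (formW prmH hS perH tamH k j S).bsd (card_prim8 (dW_ne0 k j S))
      (critW k j S)
    refine ⟨q, fun _ => ?_, fun k' j' S' h => ?_⟩
    · rw [hkj]
      exact hq1
    · obtain ⟨rfl, rfl, rfl⟩ := dW_inj (hkj.symm.trans h)
      exact hq2
  choose q hq1 hq2 using key
  exact ⟨q, hq1, fun k j S => hq2 _ k j S rfl⟩

end

end Pool.Agent.Lib.MP_1a91b9_ntW.F
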