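import Pool.Agent.Lib.MP_1a91b9_ntQ.A.Res4
import Pool.Agent.Lib.MP_1a91b9_ntT3.R3.Defs
import Pool.Agent.Lib.MP_1a91b9_ntS.R.Defs

/-!
# Phase 6, form T, general file FormG: the formula modulo `2` over any number field

`form_gen`: from the valuations of the normalised value to `g(1) √|D| / Ω = q T / c²`, `q` with odd
denominator, `q` odd exactly if `b`; `FormN`, `FormN.bsd`.
-/

set_option autoImplicit false
set_option linter.unusedSectionVars false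

namespace Pool.Agent.Lib.MP_1a91b9_ntW.F

open NumberField IsDedekindDomain WithZero WeierstrassCurve
open Pool.Agent.Lib.MP_1a91b9_ntQ (Rt exists_B2)
open Pool.Agent.Lib.MP_1a91b9_ntT.S9 (tam normFactor period minChange)
open Pool.Agent.Lib.MP_1a91b9_ntT3.S9 (ShaP)
open Pool.Agent.Lib.MP_1a91b9_ntS (BSDMod)
open scoped Classical

noncomputable section

/-! ### Valuation rings above `2` -/

section val
variable {B : ValuationSubring ℂ}

theorem v2_conj {x : ℂ} (h : (B.comap (starRingEnd ℂ)).valuation x = 1) :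
    B.valuation ((starRingEnd ℂ) x) = 1 := by
  have h0 : x ≠ 0 := by
    rintro rfl
    rw [map_zero] at h
    exact zero_ne_one h
  have h1 : x ∈ B.comap (starRingEnd ℂ) := by
    rw [← ValuationSubring.valuation_le_one_iff, h]
  have h2 : x⁻¹ ∈ B.comap (starRingEnd ℂ) := by
    rw [← ValuationSubring.valuation_le_one_iff, map_inv₀, h, inv_one]
  rw [ValuationSubring.mem_comap] at h1 h2
  rw [map_inv₀] at h2
  have h3 := (B.valuation_le_one_iff _).2 h1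
  have h4 := (B.valuation_le_one_iff _).2 h2
  rw [map_inv₀] at h4
  refine le_antisymm h3 ?_
  have h5 : B.valuation ((starRingEnd ℂ) x) ≠ 0 := by
    rw [Valuation.ne_zero_iff]
    exact (map_ne_zero _).2 h0
  exact (inv_le_one₀ (zero_lt_iff.2 h5)).1 h4

theorem v2_comap (hB : (2 : ℂ)⁻¹ ∉ B) : (2 : ℂ)⁻¹ ∉ B.comap (starRingEnd ℂ) := by
  intro h
  apply hB
  rw [ValuationSubring.mem_comap, map_inv₀, map_ofNat] at h
  exact h

theorem v2_normsq {y : ℂ} (hB : (2 : ℂ)⁻¹ ∉ B)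
    (h : ∀ B : ValuationSubring ℂ, (2 : ℂ)⁻¹ ∉ B → B.valuation y = 1) :
    B.valuation ((‖y‖ ^ 2 : ℝ) : ℂ) = 1 := by
  rw [Complex.ofReal_pow, ← Complex.conj_mul', map_mul, v2_conj (h _ (v2_comap hB)), h B hB,
    one_mul]

theorem v2_pow {y : ℂ} {n : ℕ} (hn : n ≠ 0) (h : B.valuation (y ^ n) = 1) :
    B.valuation y = 1 := by
  rw [map_pow] at h
  exact (pow_eq_one_iff_of_nonneg zero_le hn).1 h

theorem v2_odd (hB : (2 : ℂ)⁻¹ ∉ B) {n : ℕ} (hn : Odd n) : B.valuation (n : ℂ) = 1 := by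
  refine (Rt.natCast hB n).unit ?_
  obtain ⟨m, rfl⟩ := hn
  push_cast
  have h : (2 : ZMod 2) = 0 := rfl
  rw [h, zero_mul, zero_add]
  exact one_ne_zero

end val

theorem v2_conj_le {B : ValuationSubring ℂ} {x : ℂ}
    (h : (B.comap (starRingEnd ℂ)).valuation x ≤ 1) : B.valuation ((starRingEnd ℂ) x) ≤ 1 := by
  rw [ValuationSubring.valuation_le_one_iff, ValuationSubring.mem_comap] at h
  rwa [ValuationSubring.valuation_le_one_iff]

theorem v2_normsq_lt {B : ValuationSubring ℂ} {y : ℂ} (hB : (2 : ℂ)⁻¹ ∉ B)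
    (h : ∀ B : ValuationSubring ℂ, (2 : ℂ)⁻¹ ∉ B → B.valuation y < 1) :
    B.valuation ((‖y‖ ^ 2 : ℝ) : ℂ) < 1 := by
  rw [Complex.ofReal_pow, ← Complex.conj_mul', map_mul, mul_comm]
  exact mul_lt_one_of_lt_of_le (h B hB) (v2_conj_le (h _ (v2_comap hB)).le)

theorem v2_even {B : ValuationSubring ℂ} (hB : (2 : ℂ)⁻¹ ∉ B) {n : ℕ} (h : 2 ∣ n) :
    B.valuation (n : ℂ) < 1 := by
  obtain ⟨m, rfl⟩ := h
  have h1 := Rt.natCast hB (2 * m)
  have h2 : ((2 * m : ℕ) : ZMod 2) = 0 := by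
    push_cast
    have h : (2 : ZMod 2) = 0 := rfl
    rw [h, zero_mul]
  rw [h2] at h1
  exact h1.lt

theorem v2_int {B : ValuationSubring ℂ} (n : ℤ) :
    B.valuation (n : ℂ) = B.valuation ((n.natAbs : ℕ) : ℂ) := by
  rcases Int.natAbs_eq n with h | h
  · conv_lhs => rw [h]
    rw [Int.cast_natCast]
  · conv_lhs => rw [h]
    rw [Int.cast_neg, Int.cast_natCast, Valuation.map_neg]

/-- A rational number which is a unit above `2`, or is in the maximal ideals. -/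
theorem rat_par {x : ℝ} {q : ℚ} (hx : x = (q : ℝ)) {b : Prop}
    (h1 : b → ∀ B : ValuationSubring ℂ, (2 : ℂ)⁻¹ ∉ B → B.valuation (x : ℂ) = 1)
    (h0 : ¬ b → ∀ B : ValuationSubring ℂ, (2 : ℂ)⁻¹ ∉ B → B.valuation (x : ℂ) < 1) :
    ¬ 2 ∣ q.den ∧ (¬ (2 : ℤ) ∣ q.num ↔ b) := by
  obtain ⟨B, hB⟩ := exists_B2
  have hle : B.valuation (x : ℂ) ≤ 1 := by
    by_cases hb : b
    · exact (h1 hb B hB).le
    · exact (h0 hb B hB).le
  have hxq : (x : ℂ) = (q.num : ℂ) / (q.den : ℂ) := by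
    rw [hx, Complex.ofReal_ratCast]
    exact Rat.cast_def q
  have hodd : ∀ n : ℕ, ¬ 2 ∣ n → B.valuation (n : ℂ) = 1 := fun n hn =>
    v2_odd hB (Nat.not_even_iff_odd.1 fun h => hn (even_iff_two_dvd.1 h))
  have hd : ¬ 2 ∣ q.den := by
    intro h
    have hn : ¬ 2 ∣ q.num.natAbs := by
      intro h4
      have h3 := Nat.dvd_gcd h4 h
      rw [Nat.Coprime.gcd_eq_one q.reduced] at h3
      omega
    have h3 := v2_even hB h
    have h4 : B.valuation ((q.num : ℤ) : ℂ) = 1 := by rw [v2_int, hodd _ hn]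
    have h5 : (x : ℂ) * (q.den : ℂ) = (q.num : ℂ) := by
      rw [hxq, div_mul_cancel₀]
      exact_mod_cast q.den_nz
    have h6 := congrArg B.valuation h5
    rw [map_mul, h4, mul_comm] at h6
    have h7 := mul_lt_one_of_lt_of_le h3 hle
    rw [h6] at h7
    exact lt_irrefl _ h7
  have hv : B.valuation (x : ℂ) = B.valuation ((q.num.natAbs : ℕ) : ℂ) := by
    rw [hxq, map_div₀, hodd _ hd, div_one, v2_int]
  have hdv : (2 : ℤ) ∣ q.num ↔ 2 ∣ q.num.natAbs := by omega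
  rw [hdv]
  refine ⟨hd, fun hn => ?_, fun hb hn => ?_⟩
  · by_contra hb
    have h2 := h0 hb B hB
    rw [hv, hodd _ hn] at h2
    exact lt_irrefl _ h2
  · have h2 := h1 hb B hB
    rw [hv] at h2
    have h3 := v2_even hB hn
    rw [h2] at h3
    exact lt_irrefl _ h3

/-! ### The general form -/

/-- The formula modulo `2` : `b` says that the normalised value is a unit above `2`. -/
theorem form_gen {N : Type*} [Field N] [NumberField N] {W : WeierstrassCurve N} {g1 : ℂ} {x : ℝ}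
    {T c : ℕ} (hT : T ≠ 0) (hc : c ≠ 0)
    (hP : (∏ v : InfinitePlace N, Pool.Agent.Lib.MP_1a91b9_ntT.Per.perAt W v : ℝ) ≠ 0)
    (he : g1 * (√|(discr N : ℝ)| : ℝ) / (period W : ℝ) = (x * ((T : ℝ) / (c : ℝ) ^ 2) : ℝ))
    (hrat : ∃ q : ℚ, g1 * (√|(discr N : ℝ)| : ℝ) =
      (q : ℂ) * (∏ v : InfinitePlace N, Pool.Agent.Lib.MP_1a91b9_ntT.Per.perAt W v : ℝ)) {b : Prop}
    (h1 : b → ∀ B : ValuationSubring ℂ, (2 : ℂ)⁻¹ ∉ B → B.valuation (x : ℂ) = 1)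
    (h0 : ¬ b → ∀ B : ValuationSubring ℂ, (2 : ℂ)⁻¹ ∉ B → B.valuation (x : ℂ) < 1) :
    ∃ q : ℚ, ¬ 2 ∣ q.den ∧ (¬ (2 : ℤ) ∣ q.num ↔ b) ∧
      g1 * (√|(discr N : ℝ)| : ℝ) / (period W : ℝ) = (q * ((T : ℝ) / (c : ℝ) ^ 2) : ℝ) := by
  obtain ⟨q, hq⟩ := hrat
  obtain ⟨φ, hφ⟩ := Pool.Agent.Lib.MP_1a91b9_ntT3.S9.rat_normFactor W
  have hφ0 := Pool.Agent.Lib.MP_1a91b9_ntT3.S9.finprod_normFactor_ne W
  rw [← hφ] at hφ0
  obtain ⟨P, hPd⟩ : ∃ P : ℝ, P = ∏ v : InfinitePlace N,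
    Pool.Agent.Lib.MP_1a91b9_ntT.Per.perAt W v := ⟨_, rfl⟩
  rw [← hPd] at hP hq
  have hper : period W = (φ : ℝ) * P := by
    rw [hφ, hPd]
    rfl
  have hT0 : (T : ℝ) ≠ 0 := by exact_mod_cast hT
  have hc0 : (c : ℝ) ≠ 0 := by exact_mod_cast hc
  have hxq : x = (((c : ℚ) ^ 2 * q / (φ * T) : ℚ) : ℝ) := by
    rw [hq, hper] at he
    have h2 : ((q : ℝ) * P / (φ * P) : ℝ) = x * ((T : ℝ) / (c : ℝ) ^ 2) := by exact_mod_cast he
    rw [mul_div_mul_right _ _ hP] at h2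
    push_cast
    rw [eq_div_iff (mul_ne_zero hφ0 hT0)]
    rw [div_eq_iff hφ0] at h2
    have h5 : x * ((T : ℝ) / (c : ℝ) ^ 2) * φ * (c : ℝ) ^ 2 = x * (φ * T) := by field_simp
    rw [← h5, ← h2]
    ring
  obtain ⟨h3, h4⟩ := rat_par hxq h1 h0
  exact ⟨_, h3, h4, by rw [he, hxq]⟩


/-! ### The formula of Birch and Swinnerton-Dyer -/

section N
variable {N : Type*} [Field N] [NumberField N]

/-- The formula modulo `2` for `W` with `#W(N)[2^∞] = c` and the criterion `b`. -/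
def FormN (W : WeierstrassCurve N) (c : ℕ) (b : Prop) : Prop :=
  ∃ g : ℂ → ℂ, Differentiable ℂ g ∧ (∀ s : ℂ, 3 / 2 < s.re → g s = W.LSeries s) ∧
    ∃ q : ℚ, ¬ 2 ∣ q.den ∧ (¬ (2 : ℤ) ∣ q.num ↔ b) ∧
      g 1 * (√|(discr N : ℝ)| : ℝ) / (period W : ℝ) =
        (q * (((∏ᶠ v : HeightOneSpectrum (𝓞 N), tam W v : ℕ) : ℝ) / (c : ℝ) ^ 2) : ℝ)

theorem FormN.congr {W : WeierstrassCurve N} {c : ℕ} {b b' : Prop} (h : FormN W c b)
    (hb : b ↔ b') : FormN W c b' := by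
  rwa [← propext hb]

/-- The formula of Birch and Swinnerton-Dyer from the L side and the descent. -/
theorem FormN.bsd {W : WeierstrassCurve N} {c : ℕ} {b : Prop} (h : FormN W c b)
    (hc : Nat.card (AddCommGroup.primaryComponent W.toAffine.Point 2) = c)
    (hb : b ↔ Finite W.toAffine.Point ∧ Nat.card (ShaP 2 W) = 1) :
    ∃ q : ℚ, BSDMod 2 W q ∧ (¬ (2 : ℤ) ∣ q.num ↔ b) := by
  obtain ⟨g, hgd, hgs, q, h1, h2, h3⟩ := h
  refine ⟨q, ⟨⟨g, hgd, hgs, ?_⟩, h1, ?_⟩, h2⟩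
  · rw [h3, hc]
  · have h4 : ((2 : ℕ) : ℤ) = 2 := rfl
    rw [h4, h2, hb]

end N

end

end Pool.Agent.Lib.MP_1a91b9_ntW.F
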