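import Pool.Agent.Lib.MP_1a91b9_ntW.A.Q8
import Pool.Agent.Lib.MP_1a91b9_nuT.Rq.Act

/-!
# Phase 6, form T, file PrdT: the product formula for `X z - X t`, `t` a point of order two

For `α` in the lattice ring with `(α - 1) t ∈ Λ` and a system `τ` of representatives of `α⁻¹ Λ / Λ` we
prove `∏ (X (z + τ i) - X t) = C (X (α z) - X t)`, `C = α ^ 2 ∏ (X (τ i) - X t)` (product over the
nonzero classes), and `C ^ 2 = k ^ (n - 1)` where `(X (z + t) - X t) (X z - X t) = k`.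

Proof: the logarithmic derivative of `X z - X t` is `2 (E1 (z + t) - E1 z)`, and the distribution
relation of `E1`.
-/

set_option autoImplicit false
set_option linter.unusedSectionVars false

namespace Pool.Agent.Lib.MP_1a91b9_ntW.F

open Complex Filter Topology NumberField Pool.Agent.Lib.MP_1a91b9_nuT
  Pool.Agent.Lib.MP_1a91b9_nuT.S3 Pool.Agent.Lib.MP_1a91b9_nuT.Ell
open Pool.Agent.Lib.MP_1a91b9_ntQ (em em_add em_mul em_pow em_sub em_neg em_zero em_one em_ne em_prod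
  em_ofNat em_intCast em_natCast em_inj)

noncomputable section

variable [CD]

theorem two_memT {x : ℂ} (h : x ∈ PP.lattice) : 2 * x ∈ PP.lattice := by
  rw [two_mul]
  exact add_mem h h

theorem X_congrT {x y : ℂ} (h : x - y ∈ PP.lattice) : X x = X y := by
  have e : x = y + (x - y) := by ring
  rw [e, Ell.X_add h]

theorem em_memT (x : 𝓞 K) : em x ∈ PP.lattice := S3.embK_mem x

/-- The logarithmic derivative of `X z - X t`. -/
theorem log_XT {t z : ℂ} (ht : 2 * t ∈ PP.lattice) (ht0 : t ∉ PP.lattice)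
    (hz : 2 * z ∉ PP.lattice) : 2 * (E1 (z + t) - E1 z) * (X z - X t) = Om * Y z := by
  have h1 : t - z ∉ PP.lattice := by
    intro h
    apply hz
    have := sub_mem ht (add_mem h h)
    have e : 2 * t - (t - z + (t - z)) = 2 * z := by ring
    rwa [e] at this
  have h2 : t + z ∉ PP.lattice := by
    intro h
    apply hz
    have := sub_mem (add_mem h h) ht
    have e : t + z + (t + z) - 2 * t = 2 * z := by ring
    rwa [e] at this
  have h := sig hz ht0 h1 h2
  have h5 : E1 (t - z) = -E1 (z + t) := by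
    rw [← S3.E1_neg]
    have h6 := S3.E1_add ht (-(z + t))
    have e : -(z + t) + 2 * t = t - z := by ring
    rw [e] at h6
    exact h6
  rw [h5, add_comm t z] at h
  have hO := Om_ne_zero
  rw [X, X, Y]
  field_simp
  linear_combination h

section Prod

variable {ι : Type*} [Fintype ι] {α t k : ℂ} {τ : ι → ℂ}

omit [Fintype ι] in
theorem notMemT (hα : α ∈ PP.lattice) (h1 : ∀ i, α * τ i ∈ PP.lattice) {z : ℂ}
    (hz : 2 * (α * z) ∉ PP.lattice) (i : ι) : 2 * (z + τ i) ∉ PP.lattice := by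
  intro h
  apply hz
  have := sub_mem (S3.mul_mem hα h) (two_memT (h1 i))
  rwa [show α * (2 * (z + τ i)) - 2 * (α * τ i) = 2 * (α * z) by ring] at this

/-- The distribution relation of the logarithmic derivative. -/
theorem log_distT (hα : α ∈ PP.lattice) (hα0 : α ≠ 0) (h3 : (α - 1) * t ∈ PP.lattice)
    (h1 : ∀ i, α * τ i ∈ PP.lattice)
    (h2 : ∀ x, α * x ∈ PP.lattice → ∃! i, x - τ i ∈ PP.lattice) (z : ℂ) :
    ∑ i, 2 * (E1 (z + τ i + t) - E1 (z + τ i)) =
      α * (2 * (E1 (α * z + t) - E1 (α * z))) := by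
  have e1 : ∀ i, z + τ i + t = z + t + τ i := fun i => by ring
  rw [← Finset.mul_sum, Finset.sum_sub_distrib]
  simp_rw [e1]
  rw [E1_dist hα hα0 h1 h2, E1_dist hα hα0 h1 h2]
  have e3 : E1 (α * (z + t)) = E1 (α * z + t) := by
    refine E1_congr' ?_
    rw [show α * (z + t) - (α * z + t) = (α - 1) * t by ring]
    exact h3
  rw [e3]
  ring

/-- The quotient of the two sides. -/
def PhT (α t : ℂ) (τ : ι → ℂ) (z : ℂ) : ℂ := (∏ i, (X (z + τ i) - X t)) / (X (α * z) - X t)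

theorem hasDerivAt_PhT (ht : 2 * t ∈ PP.lattice) (ht0 : t ∉ PP.lattice)
    (hne : ∀ z, 2 * z ∉ PP.lattice → X z - X t ≠ 0)
    (hα : α ∈ PP.lattice) (hα0 : α ≠ 0) (h3 : (α - 1) * t ∈ PP.lattice)
    (h1 : ∀ i, α * τ i ∈ PP.lattice)
    (h2 : ∀ x, α * x ∈ PP.lattice → ∃! i, x - τ i ∈ PP.lattice) {z : ℂ}
    (hz : 2 * (α * z) ∉ PP.lattice) : HasDerivAt (PhT α t τ) 0 z := by
  have n1 := notMemT hα h1 hz
  have n2 : ∀ i, z + τ i ∉ PP.lattice := fun i => notMem_of_two_mul (n1 i)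
  have n3 : α * z ∉ PP.lattice := notMem_of_two_mul hz
  have c1 : ∀ i, HasDerivAt (fun z => X (z + τ i) - X t) (Om * Y (z + τ i)) z := fun i =>
    ((Rq.hasDerivAt_X (n2 i)).comp_add_const z (τ i)).sub_const _
  have d1 : ∀ i, DifferentiableAt ℂ (fun z => X (z + τ i) - X t) z := fun i =>
    (c1 i).differentiableAt
  have b1 : HasDerivAt (fun z : ℂ => α * z) α z := by
    simpa using (hasDerivAt_id z).const_mul α
  have b2 : HasDerivAt (fun z => X (α * z) - X t) (Om * Y (α * z) * α) z :=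
    ((Rq.hasDerivAt_X n3).comp z b1).sub_const _
  have d2 : DifferentiableAt ℂ (fun z => X (α * z) - X t) z := b2.differentiableAt
  have d3 : DifferentiableAt ℂ (fun z => ∏ i, (X (z + τ i) - X t)) z :=
    DifferentiableAt.fun_finsetProd fun i _ => d1 i
  have q2 : X (α * z) - X t ≠ 0 := hne _ hz
  have q3 : ∏ i, (X (z + τ i) - X t) ≠ 0 :=
    Finset.prod_ne_zero_iff.2 fun i _ => hne _ (n1 i)
  have hd : DifferentiableAt ℂ (PhT α t τ) z := d3.div d2 q2
  have hn : PhT α t τ z ≠ 0 := div_ne_zero q3 q2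
  have e1 : logDeriv (fun z => ∏ i, (X (z + τ i) - X t)) z =
      ∑ i, 2 * (E1 (z + τ i + t) - E1 (z + τ i)) := by
    rw [logDeriv_prod (f := fun i z => X (z + τ i) - X t) (fun i _ => hne _ (n1 i))
      (fun i _ => d1 i)]
    refine Finset.sum_congr rfl fun i _ => ?_
    rw [logDeriv_apply, (c1 i).deriv, ← log_XT ht ht0 (n1 i), mul_div_cancel_right₀ _
      (hne _ (n1 i))]
  have e2 : logDeriv (fun z => X (α * z) - X t) z =
      α * (2 * (E1 (α * z + t) - E1 (α * z))) := by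
    rw [logDeriv_apply, b2.deriv, ← log_XT ht ht0 hz]
    field_simp
  have e3 : logDeriv (PhT α t τ) z = 0 := by
    have := logDeriv_div (f := fun z => ∏ i, (X (z + τ i) - X t))
      (g := fun z => X (α * z) - X t) z q3 q2 d3 d2
    rw [e1, e2, log_distT hα hα0 h3 h1 h2, sub_self] at this
    exact this
  have e4 : deriv (PhT α t τ) z = 0 := by
    rw [logDeriv_apply, div_eq_zero_iff] at e3
    exact e3.resolve_right hn
  have := hd.hasDerivAt
  rwa [e4] at this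

theorem eventually_twoT (hα0 : α ≠ 0) (z : ℂ) :
    ∀ᶠ w in 𝓝[≠] z, 2 * (α * w) ∉ PP.lattice := by
  have := S3.eventually_mul_notMem (mul_ne_zero two_ne_zero hα0) z
  refine this.mono fun w hw h => hw ?_
  rw [mul_assoc]
  exact h

/-- The product formula for `X z - X t`. -/
theorem exists_prodT (ht : 2 * t ∈ PP.lattice) (ht0 : t ∉ PP.lattice)
    (hne : ∀ z, 2 * z ∉ PP.lattice → X z - X t ≠ 0)
    (hα : α ∈ PP.lattice) (hα0 : α ≠ 0) (h3 : (α - 1) * t ∈ PP.lattice)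
    (h1 : ∀ i, α * τ i ∈ PP.lattice)
    (h2 : ∀ x, α * x ∈ PP.lattice → ∃! i, x - τ i ∈ PP.lattice) :
    ∃ C : ℂ, ∀ z : ℂ, 2 * (α * z) ∉ PP.lattice →
      ∏ i, (X (z + τ i) - X t) = C * (X (α * z) - X t) := by
  set S : Set ℂ := {w : ℂ | 2 * (α * w) ∈ PP.lattice} with hSdef
  have h2α : 2 * α ≠ 0 := mul_ne_zero two_ne_zero hα0
  have hS : ∀ z : ℂ, ∀ᶠ w in 𝓝[≠] z, w ∉ S := fun z => eventually_twoT hα0 z
  have hcount : S.Countable := by
    have := S3.countable_lat.preimage_of_injOn (f := fun w : ℂ => 2 * α * w)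
      (fun x _ y _ h => mul_left_cancel₀ h2α h)
    refine this.mono fun w hw => ?_
    show 2 * α * w ∈ PP.lattice
    rw [mul_assoc]
    exact hw
  have hSo : IsOpen Sᶜ := S3.isOpen_of_iso hS
  have hconst : ∀ x ∈ Sᶜ, ∀ y ∈ Sᶜ, PhT α t τ x = PhT α t τ y := by
    intro x hx y hy
    exact hSo.is_const_of_deriv_eq_zero (f := PhT α t τ)
      (S3.isPreconnected_compl_of_countable hcount)
      (fun w hw => (hasDerivAt_PhT ht ht0 hne hα hα0 h3 h1 h2
        hw).differentiableAt.differentiableWithinAt)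
      (fun w hw => (hasDerivAt_PhT ht ht0 hne hα hα0 h3 h1 h2 hw).deriv) hx hy
  obtain ⟨z₀, hz₀⟩ : ∃ z₀, z₀ ∈ Sᶜ := by
    have := (hS 0).exists
    exact this
  refine ⟨PhT α t τ z₀, fun z hz => ?_⟩
  rw [hconst z₀ hz₀ z hz, PhT, div_mul_cancel₀ _ (hne _ hz)]

/-- the square of the constant -/
theorem sq_constT (ht : 2 * t ∈ PP.lattice) (hk0 : k ≠ 0)
    (hk : ∀ z, 2 * z ∉ PP.lattice → (X (z + t) - X t) * (X z - X t) = k)
    (hα : α ∈ PP.lattice) (hα0 : α ≠ 0) (h3 : (α - 1) * t ∈ PP.lattice)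
    (h1 : ∀ i, α * τ i ∈ PP.lattice) {C : ℂ}
    (hC : ∀ z : ℂ, 2 * (α * z) ∉ PP.lattice →
      ∏ i, (X (z + τ i) - X t) = C * (X (α * z) - X t)) :
    C ^ 2 * k = k ^ Fintype.card ι := by
  obtain ⟨z, hz⟩ := (eventually_twoT hα0 0).exists
  have hz' : 2 * (α * (z + t)) ∉ PP.lattice := by
    intro h
    apply hz
    have h4 := sub_mem h (S3.mul_mem hα ht)
    rwa [show 2 * (α * (z + t)) - α * (2 * t) = 2 * (α * z) by ring] at h4
  have a1 := hC z hz
  have a2 := hC (z + t) hz'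
  have e1 : X (α * (z + t)) = X (α * z + t) := by
    refine X_congrT ?_
    rw [show α * (z + t) - (α * z + t) = (α - 1) * t by ring]
    exact h3
  have e2 : ∀ i, (X (z + t + τ i) - X t) * (X (z + τ i) - X t) = k := by
    intro i
    have h5 := hk _ (notMemT hα h1 hz i)
    rwa [show z + τ i + t = z + t + τ i by ring] at h5
  have e3 := hk _ hz
  have e4 : (∏ i, (X (z + t + τ i) - X t)) * ∏ i, (X (z + τ i) - X t) = ∏ _i : ι, k := by
    rw [← Finset.prod_mul_distrib]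
    exact Finset.prod_congr rfl fun i _ => e2 i
  rw [a1, a2, e1, Finset.prod_const, Finset.card_univ] at e4
  rw [← e4]
  linear_combination -(C ^ 2) * e3

end Prod

theorem tendsto_XT0 (t : ℂ) : Tendsto (fun z => z ^ 2 * (X z - X t)) (𝓝[≠] 0)
    (𝓝 (1 / Om ^ 2)) := by
  have h1 : Tendsto (fun z => S3.Pr z * (z ^ 0)⁻¹) (𝓝[≠] 0) (𝓝 0) := S3.tendsto_Pr (by norm_num)
  have h2 : ContinuousAt (fun z : ℂ => z ^ 2) 0 := by fun_prop
  have h3 := h2.tendsto.mono_left (nhdsWithin_le_nhds (s := {0}ᶜ))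
  have h4 := ((h3.mul h1).const_add 1).div_const (Om ^ 2)
  have h6 := h4.sub (h3.mul_const (X t))
  have e0 : (1 + (fun z : ℂ => z ^ 2) 0 * 0) / Om ^ 2 - (fun z : ℂ => z ^ 2) 0 * X t =
      1 / Om ^ 2 := by
    simp
  rw [e0] at h6
  refine h6.congr' ?_
  filter_upwards [self_mem_nhdsWithin] with z hz
  have hz0 : z ≠ 0 := hz
  have hO := Om_ne_zero
  have hX : X z = PP.weierstrassP z / Om ^ 2 := rfl
  rw [hX, S3.P_eq z]
  field_simp

theorem tendsto_XTα {α : ℂ} (hα0 : α ≠ 0) (t : ℂ) :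
    Tendsto (fun z => z ^ 2 * (X (α * z) - X t)) (𝓝[≠] 0) (𝓝 (1 / Om ^ 2 / α ^ 2)) := by
  have b1 : Tendsto (fun w : ℂ => α * w) (𝓝[≠] 0) (𝓝[≠] 0) := by
    refine tendsto_nhdsWithin_iff.2 ⟨?_, ?_⟩
    · have h2 : ContinuousAt (fun w : ℂ => α * w) 0 := by fun_prop
      have h3 := h2.tendsto
      rw [mul_zero] at h3
      exact h3.mono_left nhdsWithin_le_nhds
    · filter_upwards [self_mem_nhdsWithin] with w hw
      exact mul_ne_zero hα0 hw
  have h1 := ((tendsto_XT0 t).comp b1).div_const (α ^ 2)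
  refine h1.congr fun z => ?_
  simp only [Function.comp_apply]
  field_simp

section Prod2

variable {ι : Type*} [Fintype ι] [DecidableEq ι] {α t k : ℂ} {τ : ι → ℂ}

/-- The product of the values of `X - X t` at the nonzero division points. -/
theorem norm_cXT (ht : 2 * t ∈ PP.lattice) (ht0 : t ∉ PP.lattice) (hk0 : k ≠ 0)
    (hk : ∀ z, 2 * z ∉ PP.lattice → (X (z + t) - X t) * (X z - X t) = k)
    (hα : α ∈ PP.lattice) (hα0 : α ≠ 0) (h3 : (α - 1) * t ∈ PP.lattice)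
    (h1 : ∀ i, α * τ i ∈ PP.lattice)
    (h2 : ∀ x, α * x ∈ PP.lattice → ∃! i, x - τ i ∈ PP.lattice) {i0 : ι}
    (hi0 : τ i0 ∈ PP.lattice) :
    (‖α‖ ^ 2 * ‖∏ i ∈ Finset.univ.erase i0, (X (τ i) - X t)‖) ^ 2 =
      ‖k‖ ^ (Fintype.card ι - 1) := by
  have hne0 : ∀ z, 2 * z ∉ PP.lattice → X z - X t ≠ 0 := by
    intro z hz h
    have h4 := hk z hz
    rw [h, mul_zero] at h4
    exact hk0 h4.symm
  obtain ⟨C, hC⟩ := exists_prodT ht ht0 hne0 hα hα0 h3 h1 h2
  have hn := sq_constT ht hk0 hk hα hα0 h3 h1 hC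
  have hne : ∀ i, i ≠ i0 → τ i ∉ PP.lattice := by
    intro i hi h
    apply hi
    have hm : ∀ x ∈ PP.lattice, 0 - x ∈ PP.lattice := by
      intro x hx
      rw [zero_sub]
      exact neg_mem hx
    exact (h2 0 (by rw [mul_zero]; exact zero_mem _)).unique (hm _ h) (hm _ hi0)
  have t1 : Tendsto (fun z => ∏ i ∈ Finset.univ.erase i0, (X (z + τ i) - X t)) (𝓝[≠] 0)
      (𝓝 (∏ i ∈ Finset.univ.erase i0, (X (τ i) - X t))) := by
    refine tendsto_finsetProd _ fun i hi => ?_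
    have hi' := hne i (Finset.mem_erase.1 hi).1
    have h5 : ContinuousAt (fun z => X (z + τ i)) 0 := by
      refine ContinuousAt.comp (g := X) (f := fun z => z + τ i) ?_ (by fun_prop)
      rw [zero_add]
      exact (Rq.hasDerivAt_X hi').continuousAt
    have h6 := (h5.tendsto.mono_left (nhdsWithin_le_nhds (s := {0}ᶜ))).sub_const (X t)
    rw [zero_add] at h6
    exact h6
  have t2 := (tendsto_XT0 t).mul t1
  have t3 := (tendsto_XTα hα0 t).const_mul C
  have e : (fun z => z ^ 2 * (X z - X t) * ∏ i ∈ Finset.univ.erase i0, (X (z + τ i) - X t))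
      =ᶠ[𝓝[≠] 0] fun z => C * (z ^ 2 * (X (α * z) - X t)) := by
    filter_upwards [eventually_twoT hα0 0] with w hw
    have h4 := hC w hw
    have h5 : X (w + τ i0) = X w := X_congrT (by rwa [add_sub_cancel_left])
    rw [← Finset.mul_prod_erase Finset.univ _ (Finset.mem_univ i0), h5] at h4
    linear_combination w ^ 2 * h4
  have h5 := tendsto_nhds_unique_of_eventuallyEq t2 t3 e
  have hO : Om ^ 2 ≠ 0 := pow_ne_zero 2 Om_ne_zero
  have h6 : α ^ 2 * ∏ i ∈ Finset.univ.erase i0, (X (τ i) - X t) = C := by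
    have hO' := Om_ne_zero
    have h7 : C * (1 / Om ^ 2 / α ^ 2) * (α ^ 2 * Om ^ 2) = C := by
      field_simp
    rw [← h7, ← h5]
    field_simp
  rw [← norm_pow, ← norm_mul, h6, ← norm_pow, ← norm_pow]
  congr 1
  have hcard : 1 ≤ Fintype.card ι := Fintype.card_pos_iff.2 ⟨i0⟩
  obtain ⟨n, hn'⟩ : ∃ n, Fintype.card ι = n + 1 := ⟨Fintype.card ι - 1, by omega⟩
  rw [hn', Nat.add_sub_cancel]
  rw [hn', pow_succ] at hn
  exact mul_right_cancel₀ hk0 hn

end Prod2

/-- **The product of the values of `X - X t` over the nonzero classes.** -/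
theorem norm_prodT {t k : ℂ} (ht : 2 * t ∈ PP.lattice) (ht0 : t ∉ PP.lattice) (hk0 : k ≠ 0)
    (hk : ∀ z, 2 * z ∉ PP.lattice → (X (z + t) - X t) * (X z - X t) = k)
    {ι : Type*} [Fintype ι] [DecidableEq ι] {a : 𝓞 K} {ρ : ι → 𝓞 K} (ha : a ≠ 0)
    (h3 : (em a - 1) * t ∈ PP.lattice) (h : ∀ x : 𝓞 K, ∃! i, a ∣ x - ρ i) {i0 : ι}
    (hi : ρ i0 = 0) :
    (‖em a‖ ^ 2 * ‖∏ i ∈ Finset.univ.erase i0, (X (em (ρ i) / em a) - X t)‖) ^ 2 =
      ‖k‖ ^ (Fintype.card ι - 1) := by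
  have ha0 : em a ≠ 0 := em_ne ha
  refine norm_cXT ht ht0 hk0 hk (em_memT a) ha0 h3 (fun i => ?_) (fun x hx => ?_) ?_
  · rw [mul_div_cancel₀ _ ha0]
    exact em_memT _
  · obtain ⟨y, hy⟩ := S3.mem_PP_iff.1 hx
    have key : ∀ i, x - em (ρ i) / em a ∈ PP.lattice ↔ a ∣ y - ρ i := by
      intro i
      have e : em (y - ρ i) = em a * (x - em (ρ i) / em a) := by
        have hy' : em y = em a * x := hy
        rw [em_sub, mul_sub, mul_div_cancel₀ _ ha0, hy']
      constructor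
      · intro hm
        obtain ⟨b, hb⟩ := S3.mem_PP_iff.1 hm
        refine ⟨b, ?_⟩
        apply em_inj
        rw [e, em_mul, ← hb]
        rfl
      · rintro ⟨b, hb⟩
        rw [hb, em_mul] at e
        rw [← mul_left_cancel₀ ha0 e]
        exact em_memT b
    obtain ⟨i, hi, hi'⟩ := h y
    exact ⟨i, (key i).2 hi, fun j hj => hi' j ((key j).1 hj)⟩
  · rw [hi, em_zero, zero_div]
    exact zero_mem _

end

end Pool.Agent.Lib.MP_1a91b9_ntW.F
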