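import Pool.Agent.Lib.MP_1a91b9_ntW.F.ActW
import Pool.Agent.Lib.MP_1a91b9_ntW.A.Lam8

/-!
# Phase 6, form T over `ℚ(√-2)`, file BaseW: the numbers attached to the unit part and to `lam`

`base_exists k j`: a number `H0 ≠ 0` with `θ(c) τ(H0) = s H0`, `‖H0‖ ^ 2 ‖lm‖ ^ (1 - j)` rational.
-/

set_option autoImplicit false
set_option linter.unusedSectionVars false

namespace Pool.Agent.Lib.MP_1a91b9_ntW.F

open NumberField Finset Pool.Agent.Lib.MP_1a91b9_nuT Pool.Agent.Lib.MP_1a91b9_nuT.S3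
  Pool.Agent.Lib.MP_1a91b9_nuT.Ell
open Pool.Agent.Lib.MP_1a91b9_nuT.Rq (ev Rel)
open Pool.Agent.Lib.MP_1a91b9_ntQ (em em_add em_mul em_pow em_sub em_neg em_zero em_one em_ne em_prod
  em_ofNat em_intCast em_natCast em_inj)

noncomputable section

/-! ### Absolute values -/

theorem norm_lm_sq : ‖lm‖ ^ 2 = 2 := by
  rw [← norm_pow, lm_sq (hq := q8), norm_neg]
  norm_num

theorem norm_lm_pos : 0 < ‖lm‖ := norm_pos_iff.2 (lm_ne (hq := q8))

theorem norm_om : ‖om‖ = 6 * ‖Om‖ := by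
  rw [om, norm_mul]
  norm_num

theorem norm_Om_pos : 0 < ‖Om‖ := norm_pos_iff.2 Om_ne_zero

/-- the value for the empty set, `j = 0` -/
theorem norm_L0 (k : ZMod 2) : ‖La8 k 0 ∅ / om‖ ^ 2 * ‖lm‖ = 8 := by
  have h := L0_pow (av8 k 0)
  have h1 := congrArg norm h
  rw [norm_pow, norm_pow] at h1
  have h2 := norm_lm_sq
  obtain ⟨A, hA⟩ : ∃ A, A = ‖La8 k 0 ∅ / om‖ := ⟨_, rfl⟩
  obtain ⟨l, hl⟩ : ∃ l, l = ‖lm‖ := ⟨_, rfl⟩
  rw [← hA, ← hl] at h1
  rw [← hl] at h2
  rw [← hA, ← hl]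
  have h3 : (A ^ 2 * l) ^ 2 = 8 ^ 2 := by
    have e : (A ^ 2 * l) ^ 2 = A ^ 4 * l ^ 2 := by ring
    have e2 : l ^ 10 * l ^ 2 = (l ^ 2) ^ 6 := by ring
    rw [e, h1, e2, h2]
    norm_num
  have hA0 : 0 ≤ A := by rw [hA]; exact norm_nonneg _
  have hl0 : 0 ≤ l := by rw [hl]; exact norm_nonneg _
  exact (pow_left_inj₀ (by positivity) (by norm_num) (by norm_num)).1 h3

/-! ### The action on the values of the empty set -/

theorem X8_empty (k j : ZMod 2) (c : 𝓞 K8) : X8 k j ∅ c = th8 k j c := by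
  rw [X8, prod_empty, mul_one, AS, sum_empty, add_zero]

/-- the data of an automorphism -/
structure Aut (τ : ℂ ≃+* ℂ) (M : ℕ) (c : 𝓞 K8) (s : ZMod 2) : Prop where
  fix : Rq.Fix τ
  pos : 0 < M
  dvd : 4 * lam ∣ (M : 𝓞 K8)
  pr : Pr c
  cop : IsCoprime c (M : 𝓞 K8)
  rel : ∀ a : 𝓞 K8, Rel τ (em a / M) (sn s * (em (c * a) / M))
  ev : ∀ a : 𝓞 K8, τ (ev (em a / M)) = sn s * Rq.ev (em (c * a) / M)

theorem Aut.exists {τ : ℂ ≃+* ℂ} (hτ : Rq.Fix τ) {M : ℕ} (hM : 0 < M)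
    (h : 4 * lam ∣ (M : 𝓞 K8)) : ∃ c s, Aut τ M c s := by
  obtain ⟨c, s, h1, h2, h3, h4⟩ := exists_act hτ M hM ((dvd_mul_left lam 4).trans h)
  exact ⟨c, s, hτ, hM, h, h1, h2, h3, h4⟩

theorem fj_dvd (j : ZMod 2) : fj j ∣ 4 * lam := by
  rcases sn_cases j with rfl | rfl
  · rw [fj_zero]
    exact dvd_mul_right _ _
  · rw [fj_one]

section
variable {τ : ℂ ≃+* ℂ} {M : ℕ} {c : 𝓞 K8} {s : ZMod 2}

theorem Aut.empty (h : Aut τ M c s) (k j : ZMod 2) :
    th8 k j c * τ (La8 k j ∅ / Om) = sn s * (La8 k j ∅ / Om) := by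
  have h1 := act_sum (X8_chr k j ∅) h.pos (by
    rw [DD_empty, mul_one]
    exact (fj_dvd j).trans h.dvd) h.pr h.cop h.ev (X8_fix τ k j ∅)
  rw [X8_empty] at h1
  have e : LG Pr (X8 k j ∅) 1 * em (fj j * DD ∅) / Om = La8 k j ∅ / Om := by
    rw [La8, mul_comm]
  rw [e] at h1
  exact h1

theorem Aut.fixlm (h : Aut τ M c s) : τ lm = lm := h.fix

/-- the sign -/
theorem Aut.sgn (h : Aut τ M c s) : th8 1 1 c = sn s := by
  have h1 := h.empty 1 1
  have h2 : La8 1 1 ∅ / Om = -12 * c0 := by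
    rw [La8_empty, U8_one, U1_zero, sn_one, om]
    have hO := Om_ne_zero
    field_simp
    ring
  have h3 : τ c0 = c0 := by
    rcases c0_cases with h3 | h3
    · rw [h3, map_pow, h.fixlm]
    · rw [h3, map_neg, map_pow, h.fixlm]
  have h4 : τ (-12 * c0) = -12 * c0 := by
    rw [map_mul, h3, map_neg, map_ofNat]
  rw [h2, h4] at h1
  exact mul_right_cancel₀ (mul_ne_zero (by norm_num) c0_ne) h1

/-- the action on `√2` -/
theorem Aut.fixrt (h : Aut τ M c s) : τ rt = sn (aa c) * rt := by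
  obtain ⟨d, hd⟩ := (dvd_mul_right (4 : 𝓞 K8) lam).trans h.dvd
  have hM0 : (M : ℂ) ≠ 0 := by exact_mod_cast h.pos.ne'
  have hMd : (M : ℂ) = 4 * em d := by
    have h1 : em ((M : ℕ) : 𝓞 K8) = M := em_natCast M
    have h2 : em (4 * d : 𝓞 K8) = em (4 : 𝓞 K8) * em d := em_mul _ _
    have h3 : em (4 : 𝓞 K8) = 4 := em_ofNat 4
    rw [← h1, hd, h2, h3]
  have hd0 : em d ≠ 0 := by
    intro h0
    rw [h0, mul_zero] at hMd
    exact hM0 hMd
  have e1 : em (lam * d) / M = lm / 4 := by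
    have h2 : em (lam * d) = em lam * em d := em_mul _ _
    have h3 : em lam = lm := rfl
    rw [h2, h3, hMd]
    field_simp
  have e2 : em (c * (lam * d)) / M = em c * (lm / 4) := by
    have h2 : em (c * (lam * d)) = em c * em (lam * d) := em_mul _ _
    rw [h2, mul_div_assoc, e1]
  have h1 := h.rel (lam * d)
  rw [e1, e2] at h1
  have hlm4 : lm / 4 ∉ PP.lattice := fun h0 => two_lm4_notMem (by
    have := add_mem h0 h0
    rwa [← two_mul] at this)
  have hX : xx (em c * (lm / 4)) = τ (xx (lm / 4)) := by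
    rcases h1 with ⟨h2, -⟩ | ⟨-, -, h2, -⟩
    · exact absurd h2 hlm4
    · have h3 : xx (sn s * (em c * (lm / 4))) = τ (xx (lm / 4)) := by
        rw [xx, xx, h2, map_div₀, map_add, map_ofNat, map_ofNat]
      rcases sn_neg_cases s (em c * (lm / 4)) with h4 | h4
      · rwa [h4] at h3
      · rwa [h4, xx_neg] at h3
  -- the coordinates of `c`
  obtain ⟨a, ha⟩ : ∃ a, a = (cp c).1 := ⟨_, rfl⟩
  obtain ⟨b, hb⟩ : ∃ b, b = (cp c).2 := ⟨_, rfl⟩
  have hc : em c = a + b * lm := by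
    have h2 := eq_cp c
    rw [← ha, ← hb] at h2
    have h3 := em_coords a b
    rw [h2]
    exact h3
  have hodd : a % 2 = 1 := by
    rw [ha]
    exact (Pr_iff.1 h.pr).1
  have e3 : em c * (lm / 4) = a * (lm / 4) - b / 2 := by
    rw [hc]
    linear_combination (b / 4 : ℂ) * lm_sq (hq := q8)
  have hlat : ∀ m n : ℤ, (m : ℂ) + n * lm ∈ PP.lattice := by
    intro m n
    rw [← em_coords]
    exact em_mem8 _
  -- `a = ± 1` modulo `4`
  have key : ∀ u : ℂ, 2 * u ∈ PP.lattice → xx (a * (lm / 4) + u) = xx (lm / 4 + u) := by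
    intro u hu
    rcases (by omega : a % 4 = 1 ∨ a % 4 = 3) with h4 | h4
    · obtain ⟨n, hn⟩ : ∃ n, a = 4 * n + 1 := ⟨a / 4, by omega⟩
      refine xx_congr ?_
      have e : (a : ℂ) * (lm / 4) + u - (lm / 4 + u) = ((0 : ℤ) : ℂ) + (n : ℤ) * lm := by
        rw [hn]
        push_cast
        ring
      rw [e]
      exact hlat _ _
    · obtain ⟨n, hn⟩ : ∃ n, a = 4 * n - 1 := ⟨(a + 1) / 4, by omega⟩
      rw [← xx_neg (lm / 4 + u)]
      refine xx_congr ?_
      have e : (a : ℂ) * (lm / 4) + u - -(lm / 4 + u) = (((0 : ℤ) : ℂ) + (n : ℤ) * lm) + 2 * u := by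
        rw [hn]
        push_cast
        ring
      rw [e]
      exact add_mem (hlat _ _) hu
  have hbm : (b : ZMod 2) = aa c := by rw [hb, aa_cp]
  have hx4 := xx_lm4 (hq := q8)
  have hx4' := xx_lm4_half (hq := q8)
  rcases (by omega : b % 2 = 0 ∨ b % 2 = 1) with h4 | h4
  · obtain ⟨n, hn⟩ : ∃ n, b = 2 * n := ⟨b / 2, by omega⟩
    have h5 : aa c = 0 := by
      rw [← hbm, hn]
      push_cast
      have : ∀ x : ZMod 2, 2 * x = 0 := by decide
      exact this _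
    have h6 : xx (em c * (lm / 4)) = xx (lm / 4) := by
      have h7 := key 0 (by rw [mul_zero]; exact zero_mem _)
      rw [add_zero, add_zero] at h7
      rw [← h7, e3]
      refine xx_congr ?_
      have e : (a : ℂ) * (lm / 4) - b / 2 - a * (lm / 4) = ((-n : ℤ) : ℂ) + ((0 : ℤ) : ℂ) * lm := by
        rw [hn]
        push_cast
        ring
      rw [e]
      exact hlat _ _
    rw [h5, sn_zero, one_mul]
    rw [h6, hx4, map_neg] at hX
    exact (neg_injective hX).symm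
  · obtain ⟨n, hn⟩ : ∃ n, b = 2 * n + 1 := ⟨b / 2, by omega⟩
    have h5 : aa c = 1 := by
      rw [← hbm, hn]
      push_cast
      have : ∀ x : ZMod 2, 2 * x + 1 = 1 := by decide
      exact this _
    have h6 : xx (em c * (lm / 4)) = xx (lm / 4 + 1 / 2) := by
      have h7 := key (1 / 2) two_half_mem
      rw [← h7, e3]
      refine xx_congr ?_
      have e : (a : ℂ) * (lm / 4) - b / 2 - (a * (lm / 4) + 1 / 2) =
          ((-n - 1 : ℤ) : ℂ) + ((0 : ℤ) : ℂ) * lm := by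
        rw [hn]
        push_cast
        ring
      rw [e]
      exact hlat _ _
    rw [h5, sn_one, neg_one_mul]
    rw [h6, hx4', hx4, map_neg] at hX
    linear_combination hX

end

/-! ### The numbers -/

theorem rt_sq' : rt ^ 2 = 2 := by
  exact rt_sq

theorem norm_rt : ‖rt‖ ^ 2 = 2 := by
  rw [← norm_pow, rt_sq']
  norm_num

/-- **The number attached to the unit part and to `lam`.** -/
theorem base_exists (k j : ZMod 2) : ∃ H : ℂ, H ≠ 0 ∧
    (∃ r : ℚ, ‖H‖ ^ 2 * ‖lm‖ ^ (1 - j.val) = r) ∧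
    ∀ (τ : ℂ ≃+* ℂ) (M : ℕ) (c : 𝓞 K8) (s : ZMod 2), Aut τ M c s →
      th8 k j c * τ H = sn s * H := by
  have hO := Om_ne_zero
  rcases sn_cases j with rfl | rfl
  · refine ⟨La8 k 0 ∅ / Om, ?_, ⟨288, ?_⟩, fun τ M c s h => h.empty k 0⟩
    · intro h
      have h1 := norm_L0 k
      have h2 : La8 k 0 ∅ / om = (La8 k 0 ∅ / Om) / 6 := by
        rw [om]
        field_simp
      rw [h2, h, zero_div, norm_zero] at h1
      norm_num at h1
    · have h1 := norm_L0 k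
      have h2 : La8 k 0 ∅ / Om = 6 * (La8 k 0 ∅ / om) := by
        rw [om]
        field_simp
      have h6 : ‖(6 : ℂ)‖ = 6 := by norm_num
      rw [h2, norm_mul, mul_pow, h6, ZMod.val_zero, Nat.sub_zero, pow_one]
      push_cast
      linear_combination 36 * h1
  · have hv : (1 : ZMod 2).val = 1 := rfl
    rcases sn_cases k with rfl | rfl
    · refine ⟨rt, ?_, ⟨2, ?_⟩, fun τ M c s h => ?_⟩
      · intro h
        have h1 := rt_sq'
        rw [h] at h1
        norm_num at h1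
      · rw [hv, Nat.sub_self, pow_zero, mul_one, norm_rt]
        norm_num
      · rw [h.fixrt, ← h.sgn, ← mul_assoc]
        congr 1
        rw [th8, th8, ← sn_add]
        congr 1
        ring
    · refine ⟨1, one_ne_zero, ⟨1, ?_⟩, fun τ M c s h => ?_⟩
      · rw [hv, Nat.sub_self, pow_zero, norm_one]
        norm_num
      · rw [map_one, h.sgn]

end

end Pool.Agent.Lib.MP_1a91b9_ntW.F
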