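import Pool.Agent.Lib.MP_1a91b9_ntW.F.FormW
import Pool.Agent.Lib.MP_1a91b9_ntW.L.Top8

/-!
# Phase 6, `ℚ(√-2)`: the L-series of the curves `WW (dW k j S)`, the form of `FormW`
-/

set_option autoImplicit false

namespace Pool.Agent.Lib.MP_1a91b9_ntW.F

open Pool.Agent.Lib.MP_1a91b9_ntW

theorem serH : SerH := by
  intro k j S
  by_cases h : GdR k j S
  · obtain ⟨rfl, rfl, hA⟩ := h
    obtain ⟨g, h1, h2, h3⟩ := L.ser_good hA
    refine ⟨g, h1, h2, ?_⟩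
    rw [h3, if_pos ⟨rfl, rfl, hA⟩]
    push_cast
    ring
  · obtain ⟨g, h1, h2, h3⟩ := L.ser_bad h
    refine ⟨g, h1, h2, ?_⟩
    rw [h3, if_neg h]
    push_cast
    ring

end Pool.Agent.Lib.MP_1a91b9_ntW.F
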